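import Pool.Agent.Helper33.HV.FLDS

/-!
# HV: the decomposition for V2R (arrays)
-/

set_option autoImplicit false

namespace Pool.Agent.Helper33.HV

open MeasureTheory Filter Topology Pool.Agent.Helper95.PW Pool.Agent.Helper95.LN
open Pool.Agent.Helper95.CF
open Pool.Agent.Helper95.HV Pool.Agent.Helper53.LN
open Pool.Agent.Helper82.PN (pgb_tri)

theorem own_split {n M : ℕ} {X : Fin M → R3} {d : ℝ} {x : Cf n} (hd : 0 < d) (hS : Sep X d)
    (k : Fin n) (Z f : Fin M → ℝ) (h0 : (∀ i, d / 2 < nr (x k - X i)) → ∀ j, f j = 0) :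
    ∑ j, Z j * f j = ∑ i, sw X (3 / 2 * d) x i k * (∑ j, (if j = i then 0 else Z j * f j)) +
      ∑ i, sw X (3 / 2 * d) x i k * (Z i * f i) := by
  by_cases h : ∀ i, d / 2 < nr (x k - X i)
  · have h1 := h0 h
    simp [h1]
  · push Not at h
    obtain ⟨i, hi⟩ := h
    have hi' : nr (x k - X i) < 3 / 2 * d := by linarith
    have hs1 : sw X (3 / 2 * d) x i k = 1 := by
      unfold sw
      rw [if_pos hi']
    have hsum : ∀ f : Fin M → ℝ, ∑ j, sw X (3 / 2 * d) x j k * f j = f i := by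
      intro f
      rw [Finset.sum_eq_single i]
      · rw [hs1, one_mul]
      · intro j _ hj
        rw [sw_other hd hS hj hi', zero_mul]
      · intro h
        exact absurd (Finset.mem_univ _) h
    rw [hsum, hsum]
    have h1 : ∀ j, Z j * f j = (if j = i then 0 else Z j * f j) +
        (if j = i then Z i * f i else 0) := by
      intro j
      split_ifs with h
      · subst h
        ring
      · ring
    rw [Finset.sum_congr rfl (fun j _ => h1 j), Finset.sum_add_distrib]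
    congr 1
    simp

theorem small_pair {ξ G A q : R3} {K L ρ : ℝ} (hξ : nr ξ ≠ 0) (hK : 0 ≤ K) (hL : 1 ≤ L)
    (hρ : 0 < ρ) (hρ1 : ρ ≤ 1) (hG : ∀ m, |G m| ≤ 3 * K / L * nr ξ)
    (hA : ∀ m, |A m| ≤ 3 * K / ρ * nr ξ) (hq : ∀ m, |q m| ≤ 18 * K ^ 2 / L ^ 2 * nr ξ) :
    Tq ξ (G - A) (G - A) - fo q ξ ≤ Tq ξ A A + 864 * (K ^ 2 / (ρ * L)) * (1 / nr ξ) := by
  have hr : 0 < nr ξ := lt_of_le_of_ne (VIR_nr0 _) (Ne.symm hξ)
  have hL0 : 0 < L := by linarith
  rw [Tq_sub]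
  have h1 := (le_abs_self _).trans (Tq_abs hξ (by positivity) hG hG)
  have h2 := (neg_le_abs _).trans (Tq_abs hξ (by positivity) hG hA)
  have h3 := (neg_le_abs _).trans (fo_abs hξ hq)
  have hKL : K ^ 2 / L ^ 2 ≤ K ^ 2 / (ρ * L) := by
    apply div_le_div_of_nonneg_left (by positivity) (by positivity)
    nlinarith
  have e1 : 30 * (3 * K / L * nr ξ * (3 * K / L * nr ξ)) / nr ξ ^ 3 =
      270 * (K ^ 2 / L ^ 2) * (1 / nr ξ) := by
    field_simp
    ring
  have e2 : 30 * (3 * K / L * nr ξ * (3 * K / ρ * nr ξ)) / nr ξ ^ 3 =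
      270 * (K ^ 2 / (ρ * L)) * (1 / nr ξ) := by
    field_simp
    ring
  have e3 : 3 * (18 * K ^ 2 / L ^ 2 * nr ξ) / nr ξ ^ 2 = 54 * (K ^ 2 / L ^ 2) * (1 / nr ξ) := by
    field_simp
    ring
  rw [e1] at h1
  rw [e2] at h2
  rw [e3] at h3
  have m1 : K ^ 2 / L ^ 2 * (1 / nr ξ) ≤ K ^ 2 / (ρ * L) * (1 / nr ξ) := by gcongr
  linarith

/-- the double commutator for arrays -/
noncomputable def DA {n M : ℕ} (X : Fin M → R3) (Z : Fin M → ℝ) (a q : Fin n → R3)
    (x : Cf n) : ℝ :=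
  (∑ k, ∑ l, if k < l then Tq (x k - x l) (a k - a l) (a k - a l) -
      (∑ i, (q k i - q l i) * (x k i - x l i)) / nr (x k - x l) ^ 3 else 0) +
  ∑ k, ∑ j, Z j * ((∑ i, q k i * (x k i - X j i)) / nr (x k - X j) ^ 3 -
    Tq (x k - X j) (a k) (a k))

theorem D2_DA {n M : ℕ} (X : Fin M → R3) (Z : Fin M → ℝ) (g : R3 → ℝ) (x : Cf n) :
    D2 X Z g x = DA X Z (fun k => gv g (x k)) (fun k => gq g (x k)) x := rfl

theorem ARR (hDIP : ST_DIP) (hFGZ : ST_FGZ) (hKK : ST_KK) : ∀ d : ℝ, 0 < d → d ≤ 1 →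
    ∃ C : ℝ, 0 < C ∧ ∀ (n M : ℕ) (X : Fin M → R3) (Z : Fin M → ℝ) (x : Cf n)
    (G A p q : Fin n → R3) (K L ρ : ℝ) (e : Fin M → ℝ), Sep X d → 0 ≤ K → 1 ≤ L → 0 < ρ →
    ρ ≤ d → Dist X x →
    (∀ k l m, |G k m - G l m| ≤ 3 * K / L * nr (x k - x l)) →
    (∀ k l m, |p k m - p l m| ≤ 18 * K ^ 2 / L ^ 2 * nr (x k - x l)) →
    (∀ k m, |A k m| ≤ K) → (∀ k, (∀ i, d / 2 < nr (x k - X i)) → A k = 0) →
    (∀ k l m, |A k m - A l m| ≤ 3 * K / ρ * nr (x k - x l)) →
    (∀ k m, |q k m| ≤ 36 * K ^ 2 / ρ) → (∀ k, (∀ i, d / 2 < nr (x k - X i)) → q k = 0) →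
    (∀ k l m, |q k m - q l m| ≤ 36 * K ^ 2 / ρ ^ 2 * nr (x k - x l)) →
    (∀ i m y, nr (y - X i) ≤ d → |farE d X Z x i m y| ≤ e i) →
    DA X Z (fun k => G k - A k) (fun k => p k + q k) x ≤
      C * (K ^ 2 / ρ ^ 2) * (Rem (d / 8) x + ∑ i, cnt X (3 / 2 * d) x i ^ 2 + ∑ i, e i ^ 2) +
      864 * (K ^ 2 / (ρ * L)) * rep x +
      (∑ k, ∑ j, Z j * (fo (p k) (x k - X j) - Tq (x k - X j) (G k) (G k))) +
      2 * (∑ k, ∑ i, sw X (3 / 2 * d) x i k *
        ∑ j, (if j = i then 0 else Z j * Tq (x k - X j) (G k) (A k))) +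
      ∑ k, ∑ i, sw X (3 / 2 * d) x i k * (Z i * (fo (q k) (x k - X i) -
        Tq (x k - X i) (A k) (A k) + 2 * Tq (x k - X i) (G k) (A k))) := by
  intro d hd hd1
  obtain ⟨C1, hC1, H1⟩ := GEN1 hDIP hFGZ hKK d hd hd1
  obtain ⟨C2, hC2, H2⟩ := GEN2 hKK d hd hd1
  refine ⟨9 * C1 + 36 * C2, by positivity, ?_⟩
  intro n M X Z x G A p q K L ρ e hS hK hL hρ hρd hD hG2 hp2 hA1 hA0 hA2 hq1 hq0 hq2 he
  have hρ1 : ρ ≤ 1 := hρd.trans hd1
  have g1 := H1 n M X Z x A (3 * K) ρ e hS (by positivity) hρ hρd hD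
    (fun k m => (hA1 k m).trans (by linarith)) hA0 hA2 he
  have g2 := H2 n M X Z x q (36 * K ^ 2) ρ e hS (by positivity) hρ hρd hD hq1 hq0 hq2 he
  -- pairs
  have hpair : (∑ k, ∑ l, if k < l then Tq (x k - x l) ((G k - A k) - (G l - A l))
      ((G k - A k) - (G l - A l)) -
      (∑ i, ((p k + q k) i - (p l + q l) i) * (x k i - x l i)) / nr (x k - x l) ^ 3 else 0) ≤
      (∑ k, ∑ l, if k < l then Tq (x k - x l) (A k - A l) (A k - A l) else 0) +
      -(∑ k, ∑ l, if k < l then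
        (∑ m, (q k m - q l m) * (x k m - x l m)) / nr (x k - x l) ^ 3 else 0) +
      864 * (K ^ 2 / (ρ * L)) * rep x := by
    unfold rep
    rw [← Finset.sum_neg_distrib, ← Finset.sum_add_distrib, Finset.mul_sum,
      ← Finset.sum_add_distrib]
    refine Finset.sum_le_sum fun k _ => ?_
    rw [← Finset.sum_neg_distrib, ← Finset.sum_add_distrib, Finset.mul_sum,
      ← Finset.sum_add_distrib]
    refine Finset.sum_le_sum fun l _ => ?_
    by_cases h : k < l
    · simp only [if_pos h]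
      have hr0 : nr (x k - x l) ≠ 0 := hD.1 k l h.ne
      have h1 := small_pair (ξ := x k - x l) (G := G k - G l) (A := A k - A l)
        (q := p k - p l) hr0 hK hL hρ hρ1 (fun m => hG2 k l m) (fun m => hA2 k l m)
        (fun m => hp2 k l m)
      have e1 : (G k - A k) - (G l - A l) = (G k - G l) - (A k - A l) := by abel
      rw [e1]
      have e2 : (∑ i, ((p k + q k) i - (p l + q l) i) * (x k i - x l i)) /
          nr (x k - x l) ^ 3 = fo (p k - p l) (x k - x l) +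
          (∑ m, (q k m - q l m) * (x k m - x l m)) / nr (x k - x l) ^ 3 := by
        unfold fo
        rw [← add_div, ← Finset.sum_add_distrib]
        congr 1
        refine Finset.sum_congr rfl fun m _ => ?_
        simp only [Pi.add_apply, Pi.sub_apply]
        ring
      rw [e2]
      linarith
    · simp only [if_neg h]
      simp
  -- nuclei
  have hnuc : ∑ k, ∑ j, Z j * ((∑ i, (p k + q k) i * (x k i - X j i)) / nr (x k - X j) ^ 3 -
      Tq (x k - X j) (G k - A k) (G k - A k)) =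
      (∑ k, ∑ j, Z j * (fo (p k) (x k - X j) - Tq (x k - X j) (G k) (G k))) +
      ((∑ k, ∑ i, sw X (3 / 2 * d) x i k *
        ∑ j, (if j = i then 0 else Z j * fo (q k) (x k - X j))) -
      (∑ k, ∑ i, sw X (3 / 2 * d) x i k *
        ∑ j, (if j = i then 0 else Z j * Tq (x k - X j) (A k) (A k))) +
      2 * (∑ k, ∑ i, sw X (3 / 2 * d) x i k *
        ∑ j, (if j = i then 0 else Z j * Tq (x k - X j) (G k) (A k)))) +
      ∑ k, ∑ i, sw X (3 / 2 * d) x i k * (Z i * (fo (q k) (x k - X i) -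
        Tq (x k - X i) (A k) (A k) + 2 * Tq (x k - X i) (G k) (A k))) := by
    rw [Finset.mul_sum, ← Finset.sum_sub_distrib, ← Finset.sum_add_distrib,
      ← Finset.sum_add_distrib, ← Finset.sum_add_distrib]
    refine Finset.sum_congr rfl fun k _ => ?_
    have h1 := own_split (X := X) (x := x) hd hS k Z
      (fun j => fo (q k) (x k - X j) - Tq (x k - X j) (A k) (A k) +
        2 * Tq (x k - X j) (G k) (A k)) (by
      intro h j
      rw [hA0 k h, hq0 k h, fo_zero, Tq_zero, Tq_zr]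
      ring)
    have h2 : ∑ j, Z j * ((∑ i, (p k + q k) i * (x k i - X j i)) / nr (x k - X j) ^ 3 -
      Tq (x k - X j) (G k - A k) (G k - A k)) =
      (∑ j, Z j * (fo (p k) (x k - X j) - Tq (x k - X j) (G k) (G k))) +
      ∑ j, Z j * (fo (q k) (x k - X j) - Tq (x k - X j) (A k) (A k) +
        2 * Tq (x k - X j) (G k) (A k)) := by
      rw [← Finset.sum_add_distrib]
      refine Finset.sum_congr rfl fun j _ => ?_
      have e2 : (∑ i, (p k + q k) i * (x k i - X j i)) / nr (x k - X j) ^ 3 =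
          fo (p k) (x k - X j) + fo (q k) (x k - X j) := by
        unfold fo
        rw [← add_div, ← Finset.sum_add_distrib]
        congr 1
        refine Finset.sum_congr rfl fun m _ => ?_
        simp only [Pi.add_apply, Pi.sub_apply]
        ring
      rw [e2, Tq_sub]
      ring
    rw [h2, h1]
    have h3 : ∑ i, sw X (3 / 2 * d) x i k * (∑ j, (if j = i then 0 else Z j *
        (fo (q k) (x k - X j) - Tq (x k - X j) (A k) (A k) +
        2 * Tq (x k - X j) (G k) (A k)))) =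
        (∑ i, sw X (3 / 2 * d) x i k *
          ∑ j, (if j = i then 0 else Z j * fo (q k) (x k - X j))) -
        (∑ i, sw X (3 / 2 * d) x i k *
          ∑ j, (if j = i then 0 else Z j * Tq (x k - X j) (A k) (A k))) +
        2 * (∑ i, sw X (3 / 2 * d) x i k *
          ∑ j, (if j = i then 0 else Z j * Tq (x k - X j) (G k) (A k))) := by
      rw [Finset.mul_sum, ← Finset.sum_sub_distrib, ← Finset.sum_add_distrib]
      refine Finset.sum_congr rfl fun i _ => ?_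
      have h4 : ∑ j, (if j = i then 0 else Z j *
        (fo (q k) (x k - X j) - Tq (x k - X j) (A k) (A k) +
        2 * Tq (x k - X j) (G k) (A k))) =
          (∑ j, (if j = i then 0 else Z j * fo (q k) (x k - X j))) -
          (∑ j, (if j = i then 0 else Z j * Tq (x k - X j) (A k) (A k))) +
          2 * ∑ j, (if j = i then 0 else Z j * Tq (x k - X j) (G k) (A k)) := by
        rw [Finset.mul_sum, ← Finset.sum_sub_distrib, ← Finset.sum_add_distrib]
        refine Finset.sum_congr rfl fun j _ => ?_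
        split_ifs <;> ring
      rw [h4]
      ring
    rw [h3]
    ring
  have hDA : DA X Z (fun k => G k - A k) (fun k => p k + q k) x =
      (∑ k, ∑ l, if k < l then Tq (x k - x l) ((G k - A k) - (G l - A l))
      ((G k - A k) - (G l - A l)) -
      (∑ i, ((p k + q k) i - (p l + q l) i) * (x k i - x l i)) / nr (x k - x l) ^ 3 else 0) +
      ∑ k, ∑ j, Z j * ((∑ i, (p k + q k) i * (x k i - X j i)) / nr (x k - X j) ^ 3 -
      Tq (x k - X j) (G k - A k) (G k - A k)) := rfl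
  rw [hDA, hnuc]
  have e3 : C1 * ((3 * K) ^ 2 / ρ ^ 2) * (Rem (d / 8) x + ∑ i, cnt X (3 / 2 * d) x i ^ 2 +
      ∑ i, e i ^ 2) = 9 * C1 * (K ^ 2 / ρ ^ 2) * (Rem (d / 8) x +
      ∑ i, cnt X (3 / 2 * d) x i ^ 2 + ∑ i, e i ^ 2) := by ring
  have e4 : C2 * (36 * K ^ 2 / ρ ^ 2) * (Rem (d / 8) x + ∑ i, cnt X (3 / 2 * d) x i ^ 2 +
      ∑ i, e i ^ 2) = 36 * C2 * (K ^ 2 / ρ ^ 2) * (Rem (d / 8) x +
      ∑ i, cnt X (3 / 2 * d) x i ^ 2 + ∑ i, e i ^ 2) := by ring
  rw [e3] at g1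
  rw [e4] at g2
  have e5 : (9 * C1 + 36 * C2) * (K ^ 2 / ρ ^ 2) * (Rem (d / 8) x +
      ∑ i, cnt X (3 / 2 * d) x i ^ 2 + ∑ i, e i ^ 2) =
      9 * C1 * (K ^ 2 / ρ ^ 2) * (Rem (d / 8) x +
      ∑ i, cnt X (3 / 2 * d) x i ^ 2 + ∑ i, e i ^ 2) +
      36 * C2 * (K ^ 2 / ρ ^ 2) * (Rem (d / 8) x +
      ∑ i, cnt X (3 / 2 * d) x i ^ 2 + ∑ i, e i ^ 2) := by ring
  rw [e5]
  linarith

end Pool.Agent.Helper33.HV
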