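import Pool.Agent.Helper95.HV.Stmts

/-!
# HV, row FINZ: the conclusion
-/

set_option autoImplicit false

namespace Pool.Agent.Helper33.HV

open MeasureTheory Filter Pool.Agent.Helper95.PW Pool.Agent.Helper95.LN Pool.Agent.Helper95.CF
open Pool.Agent.Helper95.HV

/-- row FINZ -/
theorem FINZ (h1 : ST_SUMZ) (h2 : ST_TLZ) : ST_FINZ := by
  intro d κ hd hκ
  obtain ⟨d', hd'⟩ : ∃ d' : ℝ, d' = min d 1 := ⟨_, rfl⟩
  have hd'0 : 0 < d' := by rw [hd']; exact lt_min hd one_pos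
  have hd'1 : d' ≤ 1 := by rw [hd']; exact min_le_right _ _
  have hd'd : d' ≤ d := by rw [hd']; exact min_le_left _ _
  obtain ⟨C, hC, H1⟩ := h1 d' hd'0 hd'1
  obtain ⟨c, z1, hc, hz1, H2⟩ := h2 d' κ hd'0 hd'1 hκ
  refine ⟨max z1 ((C / (3 * c)) ^ 15), hz1.trans (le_max_left _ _), ?_⟩
  intro z E n M X Z φ G hS hN hle hk hM hz hlog hG
  have hzz1 : z1 ≤ z := (le_max_left _ _).trans hz
  have hzc : (C / (3 * c)) ^ 15 ≤ z := (le_max_right _ _).trans hz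
  have hz1' : 1 ≤ z := hz1.trans hzz1
  have hz0 : 0 < z := by linarith
  have hS' : Sep X d' := by
    intro i j hij
    have := hS i j hij
    linarith
  have hD : Dat d' z n X (fun j => (Z j : ℝ)) := ⟨hd'0, hd'1, hz1', hS', hN, hle⟩
  obtain ⟨a1, a2⟩ := H2 z E n M X Z φ G hD hM hzz1 hk hG
  have a3 := H1 z E n M X (fun j => (Z j : ℝ)) φ G hD hM a1 hG hlog
  have hM0 : (0 : ℝ) ≤ M := Nat.cast_nonneg M
  have hx : 0 ≤ C / (3 * c) := by positivity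
  have b1 : C / (3 * c) ≤ z ^ (1 / 15 : ℝ) := by
    calc C / (3 * c) = ((C / (3 * c)) ^ 15) ^ (1 / 15 : ℝ) := by
          rw [← Real.rpow_natCast, ← Real.rpow_mul hx]
          norm_num
      _ ≤ z ^ (1 / 15 : ℝ) := Real.rpow_le_rpow (by positivity) hzc (by norm_num)
  have b2 : C ≤ z ^ (1 / 15 : ℝ) * (3 * c) := (div_le_iff₀ (by positivity)).mp b1
  have b3 : z ^ (1 / 15 : ℝ) * z ^ (34 / 15 : ℝ) = z ^ (7 / 3 : ℝ) := by
    rw [← Real.rpow_add hz0]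
    norm_num
  calc mom G ≤ C * (M * z ^ (34 / 15 : ℝ)) := a3
    _ ≤ z ^ (1 / 15 : ℝ) * (3 * c) * (M * z ^ (34 / 15 : ℝ)) := by gcongr
    _ = 3 * (c * (M * (z ^ (1 / 15 : ℝ) * z ^ (34 / 15 : ℝ)))) := by ring
    _ = 3 * (c * (M * z ^ (7 / 3 : ℝ))) := by rw [b3]
    _ ≤ 3 * kinG G := by linarith

end Pool.Agent.Helper33.HV
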