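import Pool.Agent.Helper33.HV.LIP

/-!
# HV: facts on the fields
-/

set_option autoImplicit false

namespace Pool.Agent.Helper33.HV

open MeasureTheory Filter Topology Pool.Agent.Helper95.PW Pool.Agent.Helper95.LN
open Pool.Agent.Helper95.CF
open Pool.Agent.Helper95.HV Pool.Agent.Helper53.LN
open Pool.Agent.Helper14.PW
open Pool.Agent.Helper82.PN (pgb_tri)

theorem scale_mono {g : R3 → ℝ} {K K' r : ℝ} (hr : 0 < r) (h : K ≤ K') (hS : Scale g K r) :
    Scale g K' r where
  sm := hS.sm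
  cs := hS.cs
  d1 := fun i y => (hS.d1 i y).trans h
  d2 := fun i j y => (hS.d2 i j y).trans (by gcongr)
  d3 := fun i j l y => (hS.d3 i j l y).trans (by gcongr)
  d4 := fun i j l m y => (hS.d4 i j l m y).trans (by gcongr)

theorem pd_sub {f h : R3 → ℝ} (hf : ContDiff ℝ (⊤ : ℕ∞) f) (hh : ContDiff ℝ (⊤ : ℕ∞) h)
    (i : Fin 3) : pd i (fun y => f y - h y) = fun y => pd i f y - pd i h y := by
  funext y
  have h1 : DifferentiableAt ℝ f y := hf.differentiable (by simp) y
  have h2 : DifferentiableAt ℝ h y := hh.differentiable (by simp) y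
  unfold pd
  rw [fderiv_fun_sub h1 h2]
  rfl

theorem hess_zero {f : R3 → ℝ} {U : Set R3} (hU : IsOpen U) {i : Fin 3} {c : ℝ}
    (h : ∀ w ∈ U, pd i f w = c) (l : Fin 3) {y : R3} (hy : y ∈ U) : pd l (pd i f) y = 0 := by
  have h1 : pd i f =ᶠ[𝓝 y] fun _ => c := by
    filter_upwards [hU.mem_nhds hy] with w hw
    exact h w hw
  have h2 : pd l (pd i f) y = fderiv ℝ (pd i f) y (Pi.single l 1) := rfl
  rw [h2, h1.fderiv_eq]
  simp

theorem nr_cont : Continuous nr := by
  unfold nr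
  fun_prop

/-- unit vector -/
def ev (m : Fin 3) : R3 := fun i => if i = m then 1 else 0

theorem gm_in {m : Fin 3} {L : ℝ} (hC : ∀ y, nr y ≤ L → gm m L y = y m) {y : R3}
    (hy : nr y < L) : gv (gm m L) y = ev m ∧ ∀ i l, pd l (pd i (gm m L)) y = 0 := by
  have hU : IsOpen {w : R3 | nr w < L} := isOpen_lt nr_cont continuous_const
  have h1 : ∀ w ∈ {w : R3 | nr w < L}, ∀ i, pd i (gm m L) w = if i = m then 1 else 0 := by
    intro w hw i
    have h2 : gm m L =ᶠ[𝓝 w] fun y => y m := by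
      filter_upwards [hU.mem_nhds hw] with v hv
      exact hC v (le_of_lt hv)
    have h3 : pd i (gm m L) w = fderiv ℝ (gm m L) w (Pi.single i 1) := rfl
    rw [h3, h2.fderiv_eq]
    have h4 : HasFDerivAt (fun y : R3 => y m)
        (ContinuousLinearMap.proj (R := ℝ) (φ := fun _ : Fin 3 => ℝ) m) w :=
      (ContinuousLinearMap.proj (R := ℝ) (φ := fun _ : Fin 3 => ℝ) m).hasFDerivAt
    rw [h4.fderiv]
    simp only [ContinuousLinearMap.proj_apply, Pi.single_apply]
    by_cases h : i = m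
    · simp [h]
    · simp [h, Ne.symm h]
  refine ⟨?_, fun i l => hess_zero hU (fun w hw => h1 w hw i) l hy⟩
  funext i
  exact h1 y hy i

theorem trace_zero {ξ : R3} (hξ : nr ξ ≠ 0) : ∑ m, Tq ξ (ev m) (ev m) = 0 := by
  have h := VIR_nrsq ξ
  unfold Tq ev
  simp only [Fin.sum_univ_three]
  simp only [Fin.isValue, ↓reduceIte]
  simp
  field_simp
  rw [h]
  ring

theorem ev_bd (m i : Fin 3) : |ev m i| ≤ 1 := by
  unfold ev
  split_ifs <;> simp

end Pool.Agent.Helper33.HV
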