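import Pool.Agent.Helper95.HV.Stmts
import Pool.Agent.Helper53.LN.VIR

/-!
# HV: common part of the rows V2S, V2I, V2R (arrays)
-/

set_option autoImplicit false

namespace Pool.Agent.Helper33.HV

open MeasureTheory Filter Pool.Agent.Helper95.PW Pool.Agent.Helper95.LN Pool.Agent.Helper95.CF
open Pool.Agent.Helper95.HV Pool.Agent.Helper53.LN
open Pool.Agent.Helper82.PN (pgb_tri)

theorem Tq_sub (ξ v w : R3) : Tq ξ (v - w) (v - w) = Tq ξ v v + Tq ξ w w - 2 * Tq ξ v w := by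
  unfold Tq
  simp only [Fin.sum_univ_three, Pi.sub_apply]
  ring

theorem Tq_symm (x y v w : R3) : Tq (x - y) v w = Tq (y - x) v w := by
  unfold Tq
  rw [VIR_sym x y]
  simp only [Fin.sum_univ_three, Pi.sub_apply]
  ring

theorem Tq_zero (ξ : R3) : Tq ξ 0 0 = 0 := by
  unfold Tq
  simp

theorem Tq_zl (ξ w : R3) : Tq ξ 0 w = 0 := by
  unfold Tq
  simp

theorem Tq_zr (ξ w : R3) : Tq ξ w 0 = 0 := by
  unfold Tq
  simp

theorem Tq_self (y v w : R3) : Tq (y - y) v w = 0 := by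
  unfold Tq
  rw [sub_self]
  simp [nr]

theorem Tq_le {ξ v : R3} {A : ℝ} (hξ : nr ξ ≠ 0) (hv : ∀ m, |v m| ≤ A) :
    Tq ξ v v ≤ 6 * A ^ 2 / nr ξ ^ 3 := by
  have hr : 0 < nr ξ := lt_of_le_of_ne (VIR_nr0 _) (Ne.symm hξ)
  have h2 := VIR_nrsq ξ
  have hs : ∀ m, v m ^ 2 ≤ A ^ 2 := fun m => by
    rw [← sq_abs (v m)]
    exact pow_le_pow_left₀ (abs_nonneg _) (hv m) 2
  have s0 := hs 0
  have s1 := hs 1
  have s2 := hs 2
  unfold Tq
  simp only [Fin.sum_univ_three]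
  have h3 : (v 0 * ξ 0 + v 1 * ξ 1 + v 2 * ξ 2) ^ 2 ≤
      (v 0 ^ 2 + v 1 ^ 2 + v 2 ^ 2) * nr ξ ^ 2 := by
    rw [h2]
    nlinarith [sq_nonneg (v 0 * ξ 1 - v 1 * ξ 0), sq_nonneg (v 0 * ξ 2 - v 2 * ξ 0),
      sq_nonneg (v 1 * ξ 2 - v 2 * ξ 1)]
  have e1 : 3 * (v 0 * ξ 0 + v 1 * ξ 1 + v 2 * ξ 2) * (v 0 * ξ 0 + v 1 * ξ 1 + v 2 * ξ 2) /
      nr ξ ^ 5 ≤ 3 * (v 0 ^ 2 + v 1 ^ 2 + v 2 ^ 2) / nr ξ ^ 3 := by
    rw [div_le_div_iff₀ (by positivity) (by positivity)]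
    have : 0 < nr ξ ^ 3 := by positivity
    nlinarith
  have e2 : 3 * (v 0 ^ 2 + v 1 ^ 2 + v 2 ^ 2) / nr ξ ^ 3 -
      (v 0 * v 0 + v 1 * v 1 + v 2 * v 2) / nr ξ ^ 3 ≤ 6 * A ^ 2 / nr ξ ^ 3 := by
    rw [← sub_div]
    gcongr
    nlinarith
  linarith

/-- pairs in the same ball -/
noncomputable def NN {n M : ℕ} (X : Fin M → R3) (r : ℝ) (x : Cf n) (k l : Fin n) : ℝ :=
  ∑ i, sw X r x i k * sw X r x i l

section
variable {n M : ℕ} {X : Fin M → R3} {d : ℝ} {x : Cf n}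

theorem sw_other (hd : 0 < d) (hS : Sep X d) {k : Fin n} {i j : Fin M} (hij : j ≠ i)
    (hi : nr (x k - X i) < 3 / 2 * d) : sw X (3 / 2 * d) x j k = 0 := by
  unfold sw
  rw [if_neg]
  intro h
  have h1 := hS j i hij
  have h2 := pgb_tri (X j) (X i) (x k)
  linarith

theorem NN_eq (hd : 0 < d) (hS : Sep X d) {k l : Fin n} {i : Fin M}
    (hi : nr (x k - X i) < 3 / 2 * d) : NN X (3 / 2 * d) x k l = sw X (3 / 2 * d) x i l := by
  unfold NN
  rw [Finset.sum_eq_single i]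
  · have : sw X (3 / 2 * d) x i k = 1 := by
      unfold sw
      rw [if_pos hi]
    rw [this, one_mul]
  · intro j _ hj
    rw [sw_other hd hS hj hi, zero_mul]
  · intro h
    exact absurd (Finset.mem_univ _) h

theorem NN_nonneg (k l : Fin n) : 0 ≤ NN X (3 / 2 * d) x k l :=
  Finset.sum_nonneg fun _ _ => mul_nonneg (sw_nonneg _ _ _ _ _) (sw_nonneg _ _ _ _ _)

theorem NN_symm (k l : Fin n) : NN X (3 / 2 * d) x k l = NN X (3 / 2 * d) x l k :=
  Finset.sum_congr rfl fun _ _ => mul_comm _ _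

theorem NN_le (hd : 0 < d) (hS : Sep X d) (k l : Fin n) : NN X (3 / 2 * d) x k l ≤ 1 := by
  refine le_trans (Finset.sum_le_sum fun i _ => ?_) (VIR_le1 hd hS x k)
  exact mul_le_of_le_one_right (sw_nonneg _ _ _ _ _) (sw_le _ _ _ _ _)

theorem NN_cases (hd : 0 < d) (hS : Sep X d) (k l : Fin n) :
    NN X (3 / 2 * d) x k l = 1 ∨ (NN X (3 / 2 * d) x k l = 0 ∧
      ∀ i, ¬ (nr (x k - X i) < 3 / 2 * d ∧ nr (x l - X i) < 3 / 2 * d)) := by
  by_cases h : ∃ i, nr (x k - X i) < 3 / 2 * d ∧ nr (x l - X i) < 3 / 2 * d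
  · obtain ⟨i, h1, h2⟩ := h
    left
    rw [NN_eq hd hS h1]
    unfold sw
    rw [if_pos h2]
  · push Not at h
    right
    refine ⟨?_, fun i hi => absurd hi.2 (not_lt.2 (h i hi.1))⟩
    unfold NN
    refine Finset.sum_eq_zero fun i _ => ?_
    by_cases h1 : nr (x k - X i) < 3 / 2 * d
    · have := h i h1
      unfold sw
      rw [if_pos h1, if_neg (not_lt.2 this), mul_zero]
    · unfold sw
      rw [if_neg h1, zero_mul]

theorem NN_sum (X : Fin M → R3) (x : Cf n) (d : ℝ) :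
    ∑ k, ∑ l, NN X (3 / 2 * d) x k l = ∑ i, cnt X (3 / 2 * d) x i ^ 2 := by
  have h1 : ∑ k, ∑ l, NN X (3 / 2 * d) x k l =
      ∑ i, ∑ k, ∑ l, sw X (3 / 2 * d) x i k * sw X (3 / 2 * d) x i l := by
    unfold NN
    rw [Finset.sum_congr rfl (fun k _ => Finset.sum_comm)]
    rw [Finset.sum_comm]
  rw [h1]
  refine Finset.sum_congr rfl fun i _ => ?_
  rw [pow_two]
  unfold cnt
  rw [Finset.sum_mul_sum]
  rfl

/-- near pairs -/
theorem near_pairs (h4 : ST_KK) (hd : 0 < d) (hS : Sep X d) (hD : Dist X x) :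
    ∑ k, ∑ l, (if k < l then NN X (3 / 2 * d) x k l * (1 / nr (x k - x l)) else 0) ≤
      Rem (d / 8) x + 16 / d * ∑ i, cnt X (3 / 2 * d) x i ^ 2 := by
  have hb : 0 < d / 8 := by positivity
  rw [← NN_sum]
  unfold Rem
  simp only [Finset.mul_sum, ← Finset.sum_add_distrib]
  refine Finset.sum_le_sum fun k _ => Finset.sum_le_sum fun l _ => ?_
  have n0 := NN_nonneg (X := X) (d := d) (x := x) k l
  have n1 := NN_le (x := x) hd hS k l
  split_ifs with h
  · have hr0 : nr (x k - x l) ≠ 0 := hD.1 k l h.ne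
    have hK := h4 (d / 8) (x k - x l) hb
    have h1 := hK.2.1 hr0
    have h2 := hK.2.2.2
    have hK2 : 2 / (d / 8) = 16 / d := by
      field_simp
      norm_num
    rw [hK2] at h2
    have h3 : NN X (3 / 2 * d) x k l * (1 / nr (x k - x l) - Kf (d / 8) (x k - x l)) ≤
        1 * (1 / nr (x k - x l) - Kf (d / 8) (x k - x l)) :=
      mul_le_mul_of_nonneg_right n1 (by linarith)
    have h4 : NN X (3 / 2 * d) x k l * Kf (d / 8) (x k - x l) ≤
        NN X (3 / 2 * d) x k l * (16 / d) := mul_le_mul_of_nonneg_left h2 n0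
    linarith
  · have : 0 ≤ 16 / d * NN X (3 / 2 * d) x k l := by positivity
    linarith

theorem e_nonneg {Z : Fin M → ℝ} {e : Fin M → ℝ} (hd : 0 < d)
    (he : ∀ i m y, nr (y - X i) ≤ d → |farE d X Z x i m y| ≤ e i) (i : Fin M) : 0 ≤ e i := by
  refine le_trans (abs_nonneg _) (he i 0 (X i) ?_)
  rw [sub_self]
  have : nr (0 : R3) = 0 := by simp [nr]
  rw [this]
  exact hd.le

theorem sum_sw_e (e : Fin M → ℝ) :
    ∑ k, ∑ i, sw X (3 / 2 * d) x i k * e i ≤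
      ∑ i, cnt X (3 / 2 * d) x i ^ 2 + ∑ i, e i ^ 2 := by
  rw [Finset.sum_comm, ← Finset.sum_add_distrib]
  refine Finset.sum_le_sum fun i _ => ?_
  rw [← Finset.sum_mul]
  have e1 : ∑ k, sw X (3 / 2 * d) x i k = cnt X (3 / 2 * d) x i := rfl
  rw [e1]
  nlinarith [sq_nonneg (e i - cnt X (3 / 2 * d) x i), sq_nonneg (e i), sq_nonneg (cnt X (3 / 2 * d) x i)]

end

/-- the part with `Tq` -/
theorem GEN1 (hDIP : ST_DIP) (hFGZ : ST_FGZ) (hKK : ST_KK) : ∀ d : ℝ, 0 < d → d ≤ 1 →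
    ∃ C : ℝ, 0 < C ∧ ∀ (n M : ℕ) (X : Fin M → R3) (Z : Fin M → ℝ) (x : Cf n) (a : Fin n → R3)
    (K ρ : ℝ) (e : Fin M → ℝ), Sep X d → 0 ≤ K → 0 < ρ → ρ ≤ d → Dist X x →
    (∀ k m, |a k m| ≤ K) → (∀ k, (∀ i, d / 2 < nr (x k - X i)) → a k = 0) →
    (∀ k l m, |a k m - a l m| ≤ K / ρ * nr (x k - x l)) →
    (∀ i m y, nr (y - X i) ≤ d → |farE d X Z x i m y| ≤ e i) →
    (∑ k, ∑ l, if k < l then Tq (x k - x l) (a k - a l) (a k - a l) else 0) -
      ∑ k, ∑ i, sw X (3 / 2 * d) x i k *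
        ∑ j, (if j = i then 0 else Z j * Tq (x k - X j) (a k) (a k)) ≤
      C * (K ^ 2 / ρ ^ 2) * (Rem (d / 8) x + ∑ i, cnt X (3 / 2 * d) x i ^ 2 + ∑ i, e i ^ 2) := by
  intro d hd hd1
  obtain ⟨C1, hC1, H1⟩ := hFGZ d hd hd1
  obtain ⟨C2, hC2, H2⟩ := hDIP d hd hd1
  refine ⟨12 + 192 / d + C1 + 2 * C2, by positivity, ?_⟩
  intro n M X Z x a K ρ e hS hK hρ hρd hD ha1 ha2 ha3 he
  have he0 := e_nonneg hd he
  have hex : ∀ k, a k ≠ 0 → ∃ i, nr (x k - X i) ≤ d / 2 := by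
    intro k hk
    by_contra hcon
    push Not at hcon
    exact hk (ha2 k hcon)
  -- pairs
  have hA : ∀ k l, k < l → Tq (x k - x l) (a k - a l) (a k - a l) ≤
      12 * (K ^ 2 / ρ ^ 2) * (NN X (3 / 2 * d) x k l * (1 / nr (x k - x l))) +
      ((1 - NN X (3 / 2 * d) x k l) * Tq (x k - x l) (a k) (a k) +
        (1 - NN X (3 / 2 * d) x l k) * Tq (x l - x k) (a l) (a l)) +
      2 * -(if k < l ∧ d < nr (x k - x l) then Tq (x k - x l) (a k) (a l) else 0) := by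
    intro k l hkl
    have hr0 : nr (x k - x l) ≠ 0 := hD.1 k l hkl.ne
    have hr : 0 < nr (x k - x l) := lt_of_le_of_ne (VIR_nr0 _) (Ne.symm hr0)
    have hs1 : Tq (x k - x l) (a k) (a k) ≤ 6 * K ^ 2 / nr (x k - x l) ^ 3 := Tq_le hr0 (ha1 k)
    have hs2 : Tq (x k - x l) (a l) (a l) ≤ 6 * K ^ 2 / nr (x k - x l) ^ 3 := Tq_le hr0 (ha1 l)
    rw [NN_symm l k, Tq_symm (x l) (x k)]
    have hP : Tq (x k - x l) (a k - a l) (a k - a l) =
        Tq (x k - x l) (a k) (a k) + Tq (x k - x l) (a l) (a l) -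
          2 * Tq (x k - x l) (a k) (a l) := Tq_sub _ _ _
    rcases NN_cases (x := x) hd hS k l with hN | ⟨hN, hN'⟩
    · rw [hN]
      by_cases hdr : d < nr (x k - x l)
      · rw [if_pos ⟨hkl, hdr⟩, hP]
        have h3 : 6 * K ^ 2 / nr (x k - x l) ^ 3 ≤
            6 * (K ^ 2 / ρ ^ 2) * (1 / nr (x k - x l)) := by
          have e1 : 6 * (K ^ 2 / ρ ^ 2) * (1 / nr (x k - x l)) =
              6 * K ^ 2 / (ρ ^ 2 * nr (x k - x l)) := by
            field_simp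
          rw [e1]
          apply div_le_div_of_nonneg_left (by positivity) (by positivity)
          have : ρ ^ 2 ≤ nr (x k - x l) ^ 2 := by
            apply pow_le_pow_left₀ hρ.le
            linarith
          calc ρ ^ 2 * nr (x k - x l) ≤ nr (x k - x l) ^ 2 * nr (x k - x l) :=
                mul_le_mul_of_nonneg_right this hr.le
            _ = nr (x k - x l) ^ 3 := by ring
        linarith
      · rw [if_neg (fun h => hdr h.2)]
        have h3 : Tq (x k - x l) (a k - a l) (a k - a l) ≤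
            6 * (K / ρ * nr (x k - x l)) ^ 2 / nr (x k - x l) ^ 3 :=
          Tq_le hr0 (fun m => ha3 k l m)
        have e1 : 6 * (K / ρ * nr (x k - x l)) ^ 2 / nr (x k - x l) ^ 3 =
            6 * (K ^ 2 / ρ ^ 2) * (1 / nr (x k - x l)) := by
          field_simp
        rw [e1] at h3
        have h4 : 0 ≤ (K ^ 2 / ρ ^ 2) * (1 / nr (x k - x l)) := by positivity
        linarith
    · rw [hN]
      by_cases hdr : d < nr (x k - x l)
      · rw [if_pos ⟨hkl, hdr⟩, hP]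
        linarith
      · rw [if_neg (fun h => hdr h.2), hP]
        have h5 : Tq (x k - x l) (a k) (a l) = 0 := by
          by_cases hk0 : a k = 0
          · rw [hk0, Tq_zl]
          by_cases hl0 : a l = 0
          · rw [hl0, Tq_zr]
          exfalso
          obtain ⟨i, hi⟩ := hex k hk0
          obtain ⟨j, hj⟩ := hex l hl0
          by_cases hij : j = i
          · subst hij
            exact hN' j ⟨by linarith, by linarith⟩
          · have h6 := hS j i hij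
            have h7 := pgb_tri (X j) (X i) (x k)
            have h8 := pgb_tri (x k) (X j) (x l)
            rw [VIR_sym (x l) (x k)] at h8
            linarith
        rw [h5]
        linarith
  -- sum over pairs
  have hB : (∑ k, ∑ l, if k < l then Tq (x k - x l) (a k - a l) (a k - a l) else 0) ≤
      12 * (K ^ 2 / ρ ^ 2) * (∑ k, ∑ l, (if k < l then
        NN X (3 / 2 * d) x k l * (1 / nr (x k - x l)) else 0)) +
      (∑ k, ∑ l, (1 - NN X (3 / 2 * d) x k l) * Tq (x k - x l) (a k) (a k)) +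
      2 * -(∑ k, ∑ l, if k < l ∧ d < nr (x k - x l) then
        Tq (x k - x l) (a k) (a l) else 0) := by
    rw [← VIR_pairs (fun k l => (1 - NN X (3 / 2 * d) x k l) * Tq (x k - x l) (a k) (a k))
      (fun k => by simp only [Tq_self, mul_zero])]
    simp only [Finset.mul_sum, ← Finset.sum_neg_distrib, ← Finset.sum_add_distrib]
    refine Finset.sum_le_sum fun k _ => Finset.sum_le_sum fun l _ => ?_
    by_cases h : k < l
    · have := hA k l h
      simp only [if_pos h]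
      exact this
    · rw [if_neg h, if_neg h, if_neg h, if_neg (fun h' => h h'.1)]
      simp
  -- self terms
  have hC : ∀ k, (∑ l, (1 - NN X (3 / 2 * d) x k l) * Tq (x k - x l) (a k) (a k)) -
      ∑ i, sw X (3 / 2 * d) x i k *
        ∑ j, (if j = i then 0 else Z j * Tq (x k - X j) (a k) (a k)) ≤
      C1 * K ^ 2 * ∑ i, sw X (3 / 2 * d) x i k * e i := by
    intro k
    by_cases hk0 : a k = 0
    · rw [hk0]
      simp only [Tq_zero, mul_zero, ite_self, Finset.sum_const_zero, sub_zero]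
      have : 0 ≤ ∑ i, sw X (3 / 2 * d) x i k * e i :=
        Finset.sum_nonneg fun i _ => mul_nonneg (sw_nonneg _ _ _ _ _) (he0 i)
      positivity
    · obtain ⟨i, hi⟩ := hex k hk0
      have hi' : nr (x k - X i) < 3 / 2 * d := by linarith
      have hs1 : sw X (3 / 2 * d) x i k = 1 := by
        unfold sw
        rw [if_pos hi']
      have hsum : ∀ f : Fin M → ℝ, ∑ j, sw X (3 / 2 * d) x j k * f j = f i := by
        intro f
        rw [Finset.sum_eq_single i]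
        · rw [hs1, one_mul]
        · intro j _ hj
          rw [sw_other hd hS hj hi', zero_mul]
        · intro h
          exact absurd (Finset.mem_univ _) h
      rw [hsum, hsum]
      have h1 : ∑ l, (1 - NN X (3 / 2 * d) x k l) * Tq (x k - x l) (a k) (a k) =
          ∑ l, if nr (x l - X i) < 3 / 2 * d then 0 else Tq (x k - x l) (a k) (a k) := by
        refine Finset.sum_congr rfl fun l _ => ?_
        rw [NN_eq hd hS hi']
        unfold sw
        split_ifs <;> ring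
      rw [h1]
      have h2 := H1 n M X Z x i (e i) K (a k) (a k) (x k) hS (fun m y hy => he i m y hy)
        (ha1 k) (ha1 k) hi
      exact (le_abs_self _).trans h2
  have hC' := Finset.sum_le_sum fun k (_ : k ∈ Finset.univ) => hC k
  rw [Finset.sum_sub_distrib, ← Finset.mul_sum] at hC'
  have hE := sum_sw_e (X := X) (d := d) (x := x) e
  have hF := near_pairs hKK hd hS hD
  have hG := H2 n M X x a K hS ha1 ha2
  obtain ⟨c2, hc2⟩ : ∃ c2 : ℝ, c2 = ∑ i, cnt X (3 / 2 * d) x i ^ 2 := ⟨_, rfl⟩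
  obtain ⟨e2, he2⟩ : ∃ e2 : ℝ, e2 = ∑ i, e i ^ 2 := ⟨_, rfl⟩
  have hc20 : 0 ≤ c2 := by rw [hc2]; exact Finset.sum_nonneg fun i _ => sq_nonneg _
  have he20 : 0 ≤ e2 := by rw [he2]; exact Finset.sum_nonneg fun i _ => sq_nonneg _
  have hR : 0 ≤ Rem (d / 8) x := by
    unfold Rem
    refine Finset.sum_nonneg fun k _ => Finset.sum_nonneg fun l _ => ?_
    split_ifs with h
    · have := (hKK (d / 8) (x k - x l) (by positivity)).2.1 (hD.1 k l h.ne)
      linarith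
    · exact le_rfl
  rw [← hc2] at hE hF hG ⊢
  rw [← he2] at hE ⊢
  have hρ1 : ρ ≤ 1 := hρd.trans hd1
  have hKρ : K ^ 2 ≤ K ^ 2 / ρ ^ 2 := by
    rw [le_div_iff₀ (by positivity)]
    have : ρ ^ 2 ≤ 1 := pow_le_one₀ hρ.le hρ1
    nlinarith [sq_nonneg K]
  have hQ0 : 0 ≤ K ^ 2 / ρ ^ 2 := by positivity
  have m1 := mul_le_mul_of_nonneg_left hF (by positivity : 0 ≤ 12 * (K ^ 2 / ρ ^ 2))
  have m2 := mul_le_mul_of_nonneg_left hE (by positivity : 0 ≤ C1 * K ^ 2)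
  have m3 : C1 * K ^ 2 * (c2 + e2) ≤ C1 * (K ^ 2 / ρ ^ 2) * (c2 + e2) := by gcongr
  have m4 : C2 * K ^ 2 * c2 ≤ C2 * (K ^ 2 / ρ ^ 2) * c2 := by gcongr
  have m5 : (12 + 192 / d + C1 + 2 * C2) * (K ^ 2 / ρ ^ 2) * (Rem (d / 8) x + c2 + e2) =
      12 * (K ^ 2 / ρ ^ 2) * (Rem (d / 8) x + 16 / d * c2) +
      C1 * (K ^ 2 / ρ ^ 2) * (c2 + e2) + 2 * (C2 * (K ^ 2 / ρ ^ 2) * c2) +
      (K ^ 2 / ρ ^ 2) * (12 * (c2 + e2) + 192 / d * (Rem (d / 8) x + e2) +
        C1 * Rem (d / 8) x + 2 * C2 * (Rem (d / 8) x + e2)) := by ring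
  have m6 : 0 ≤ (K ^ 2 / ρ ^ 2) * (12 * (c2 + e2) + 192 / d * (Rem (d / 8) x + e2) +
        C1 * Rem (d / 8) x + 2 * C2 * (Rem (d / 8) x + e2)) := by positivity
  rw [m5]
  linarith

end Pool.Agent.Helper33.HV
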