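import Pool.Agent.Helper33.HV.GEN

/-!
# HV: common part of the rows V2S, V2I, V2R (arrays), part 2
-/

set_option autoImplicit false

namespace Pool.Agent.Helper33.HV

open MeasureTheory Filter Pool.Agent.Helper95.PW Pool.Agent.Helper95.LN Pool.Agent.Helper95.CF
open Pool.Agent.Helper95.HV Pool.Agent.Helper53.LN
open Pool.Agent.Helper82.PN (pgb_tri)

/-- force -/
noncomputable def fo (q ξ : R3) : ℝ := (∑ m, q m * ξ m) / nr ξ ^ 3

theorem fo_zero (ξ : R3) : fo 0 ξ = 0 := by
  unfold fo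
  simp

theorem fo_self (q y : R3) : fo q (y - y) = 0 := by
  unfold fo
  simp

theorem fo_add (q p y w : R3) : fo q (y - w) + fo p (w - y) =
    (∑ m, (q m - p m) * (y m - w m)) / nr (y - w) ^ 3 := by
  unfold fo
  rw [VIR_sym w y, ← add_div]
  congr 1
  rw [← Finset.sum_add_distrib]
  refine Finset.sum_congr rfl fun m _ => ?_
  simp only [Pi.sub_apply]
  ring

theorem fo_far {n M : ℕ} (d : ℝ) (X : Fin M → R3) (Z : Fin M → ℝ) (x : Cf n) (i : Fin M)
    (q y : R3) : ∑ m, q m * farE d X Z x i m y =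
      (∑ l, if nr (x l - X i) < 3 / 2 * d then 0 else fo q (y - x l)) -
        ∑ j, (if j = i then 0 else Z j * fo q (y - X j)) := by
  unfold farE
  simp only [mul_sub, Finset.sum_sub_distrib, Finset.mul_sum]
  congr 1
  · rw [Finset.sum_comm]
    refine Finset.sum_congr rfl fun l _ => ?_
    split_ifs
    · simp
    · unfold fo
      rw [Finset.sum_div]
      refine Finset.sum_congr rfl fun m _ => ?_
      simp only [Pi.sub_apply]
      ring
  · rw [Finset.sum_comm]
    refine Finset.sum_congr rfl fun j _ => ?_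
    split_ifs
    · simp
    · unfold fo
      rw [Finset.sum_div, Finset.mul_sum]
      refine Finset.sum_congr rfl fun m _ => ?_
      simp only [Pi.sub_apply]
      ring

/-- the part with the forces -/
theorem GEN2 (hKK : ST_KK) : ∀ d : ℝ, 0 < d → d ≤ 1 →
    ∃ C : ℝ, 0 < C ∧ ∀ (n M : ℕ) (X : Fin M → R3) (Z : Fin M → ℝ) (x : Cf n) (q : Fin n → R3)
    (Q ρ : ℝ) (e : Fin M → ℝ), Sep X d → 0 ≤ Q → 0 < ρ → ρ ≤ d → Dist X x →
    (∀ k m, |q k m| ≤ Q / ρ) → (∀ k, (∀ i, d / 2 < nr (x k - X i)) → q k = 0) →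
    (∀ k l m, |q k m - q l m| ≤ Q / ρ ^ 2 * nr (x k - x l)) →
    (∀ i m y, nr (y - X i) ≤ d → |farE d X Z x i m y| ≤ e i) →
    -(∑ k, ∑ l, if k < l then
        (∑ m, (q k m - q l m) * (x k m - x l m)) / nr (x k - x l) ^ 3 else 0) +
      ∑ k, ∑ i, sw X (3 / 2 * d) x i k *
        ∑ j, (if j = i then 0 else Z j * fo (q k) (x k - X j)) ≤
      C * (Q / ρ ^ 2) * (Rem (d / 8) x + ∑ i, cnt X (3 / 2 * d) x i ^ 2 + ∑ i, e i ^ 2) := by
  intro d hd hd1
  refine ⟨3 + 48 / d + 3, by positivity, ?_⟩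
  intro n M X Z x q Q ρ e hS hQ hρ hρd hD hq1 hq2 hq3 he
  have he0 := e_nonneg hd he
  have hex : ∀ k, q k ≠ 0 → ∃ i, nr (x k - X i) ≤ d / 2 := by
    intro k hk
    by_contra hcon
    push Not at hcon
    exact hk (hq2 k hcon)
  -- pairs
  have hA : ∀ k l, k < l →
      -((∑ m, (q k m - q l m) * (x k m - x l m)) / nr (x k - x l) ^ 3) ≤
      3 * (Q / ρ ^ 2) * (NN X (3 / 2 * d) x k l * (1 / nr (x k - x l))) -
      ((1 - NN X (3 / 2 * d) x k l) * fo (q k) (x k - x l) +
        (1 - NN X (3 / 2 * d) x l k) * fo (q l) (x l - x k)) := by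
    intro k l hkl
    have hr0 : nr (x k - x l) ≠ 0 := hD.1 k l hkl.ne
    have hr : 0 < nr (x k - x l) := lt_of_le_of_ne (VIR_nr0 _) (Ne.symm hr0)
    rw [NN_symm l k]
    rcases NN_cases (x := x) hd hS k l with hN | ⟨hN, -⟩
    · rw [hN]
      have h1 : ∀ m, -(Q / ρ ^ 2 * nr (x k - x l) * nr (x k - x l)) ≤
          (q k m - q l m) * (x k m - x l m) := by
        intro m
        have h2 : |(q k m - q l m) * (x k m - x l m)| ≤
            Q / ρ ^ 2 * nr (x k - x l) * nr (x k - x l) := by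
          rw [abs_mul]
          exact mul_le_mul (hq3 k l m) (VIR_comp (x k - x l) m) (abs_nonneg _) (by positivity)
        exact (abs_le.1 h2).1
      have h3 : -(3 * (Q / ρ ^ 2) * (1 / nr (x k - x l))) ≤
          (∑ m, (q k m - q l m) * (x k m - x l m)) / nr (x k - x l) ^ 3 := by
        rw [le_div_iff₀ (by positivity), Fin.sum_univ_three]
        have e1 : -(3 * (Q / ρ ^ 2) * (1 / nr (x k - x l))) * nr (x k - x l) ^ 3 =
            -(3 * (Q / ρ ^ 2 * nr (x k - x l) * nr (x k - x l))) := by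
          field_simp
        rw [e1]
        linarith [h1 0, h1 1, h1 2]
      linarith
    · rw [hN, ← fo_add]
      linarith
  have hB : -(∑ k, ∑ l, if k < l then
        (∑ m, (q k m - q l m) * (x k m - x l m)) / nr (x k - x l) ^ 3 else 0) ≤
      3 * (Q / ρ ^ 2) * (∑ k, ∑ l, (if k < l then
        NN X (3 / 2 * d) x k l * (1 / nr (x k - x l)) else 0)) -
      (∑ k, ∑ l, (1 - NN X (3 / 2 * d) x k l) * fo (q k) (x k - x l)) := by
    rw [← VIR_pairs (fun k l => (1 - NN X (3 / 2 * d) x k l) * fo (q k) (x k - x l))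
      (fun k => by simp only [fo_self, mul_zero])]
    simp only [Finset.mul_sum, ← Finset.sum_neg_distrib, ← Finset.sum_sub_distrib]
    refine Finset.sum_le_sum fun k _ => Finset.sum_le_sum fun l _ => ?_
    by_cases h : k < l
    · have := hA k l h
      simp only [if_pos h]
      exact this
    · rw [if_neg h, if_neg h, if_neg h]
      simp
  have hC : ∀ k, -(∑ l, (1 - NN X (3 / 2 * d) x k l) * fo (q k) (x k - x l)) +
      ∑ i, sw X (3 / 2 * d) x i k *
        ∑ j, (if j = i then 0 else Z j * fo (q k) (x k - X j)) ≤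
      3 * (Q / ρ) * ∑ i, sw X (3 / 2 * d) x i k * e i := by
    intro k
    by_cases hk0 : q k = 0
    · rw [hk0]
      simp only [fo_zero, mul_zero, ite_self, Finset.sum_const_zero, neg_zero, add_zero]
      have : 0 ≤ ∑ i, sw X (3 / 2 * d) x i k * e i :=
        Finset.sum_nonneg fun i _ => mul_nonneg (sw_nonneg _ _ _ _ _) (he0 i)
      positivity
    · obtain ⟨i, hi⟩ := hex k hk0
      have hi' : nr (x k - X i) < 3 / 2 * d := by linarith
      have hs1 : sw X (3 / 2 * d) x i k = 1 := by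
        unfold sw
        rw [if_pos hi']
      have hsum : ∀ f : Fin M → ℝ, ∑ j, sw X (3 / 2 * d) x j k * f j = f i := by
        intro f
        rw [Finset.sum_eq_single i]
        · rw [hs1, one_mul]
        · intro j _ hj
          rw [sw_other hd hS hj hi', zero_mul]
        · intro h
          exact absurd (Finset.mem_univ _) h
      rw [hsum, hsum]
      have h1 : ∑ l, (1 - NN X (3 / 2 * d) x k l) * fo (q k) (x k - x l) =
          ∑ l, if nr (x l - X i) < 3 / 2 * d then 0 else fo (q k) (x k - x l) := by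
        refine Finset.sum_congr rfl fun l _ => ?_
        rw [NN_eq hd hS hi']
        unfold sw
        split_ifs <;> ring
      have h2 := fo_far d X Z x i (q k) (x k)
      rw [h1]
      have h3 : -(3 * (Q / ρ) * e i) ≤ ∑ m, q k m * farE d X Z x i m (x k) := by
        have hm : ∀ m, -(Q / ρ * e i) ≤ q k m * farE d X Z x i m (x k) := by
          intro m
          have h4 : |q k m * farE d X Z x i m (x k)| ≤ Q / ρ * e i := by
            rw [abs_mul]
            exact mul_le_mul (hq1 k m) (he i m _ (by linarith)) (abs_nonneg _) (by positivity)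
          exact (abs_le.1 h4).1
        rw [Fin.sum_univ_three]
        linarith [hm 0, hm 1, hm 2]
      linarith
  have hC' := Finset.sum_le_sum fun k (_ : k ∈ Finset.univ) => hC k
  rw [Finset.sum_add_distrib, Finset.sum_neg_distrib, ← Finset.mul_sum] at hC'
  have hE := sum_sw_e (X := X) (d := d) (x := x) e
  have hF := near_pairs hKK hd hS hD
  obtain ⟨c2, hc2⟩ : ∃ c2 : ℝ, c2 = ∑ i, cnt X (3 / 2 * d) x i ^ 2 := ⟨_, rfl⟩
  obtain ⟨e2, he2⟩ : ∃ e2 : ℝ, e2 = ∑ i, e i ^ 2 := ⟨_, rfl⟩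
  have hc20 : 0 ≤ c2 := by rw [hc2]; exact Finset.sum_nonneg fun i _ => sq_nonneg _
  have he20 : 0 ≤ e2 := by rw [he2]; exact Finset.sum_nonneg fun i _ => sq_nonneg _
  have hR : 0 ≤ Rem (d / 8) x := by
    unfold Rem
    refine Finset.sum_nonneg fun k _ => Finset.sum_nonneg fun l _ => ?_
    split_ifs with h
    · have := (hKK (d / 8) (x k - x l) (by positivity)).2.1 (hD.1 k l h.ne)
      linarith
    · exact le_rfl
  rw [← hc2] at hE hF ⊢
  rw [← he2] at hE ⊢
  have hρ1 : ρ ≤ 1 := hρd.trans hd1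
  have hQρ : Q / ρ ≤ Q / ρ ^ 2 := by
    apply div_le_div_of_nonneg_left hQ (by positivity)
    nlinarith
  have hQ0 : 0 ≤ Q / ρ ^ 2 := by positivity
  have m1 := mul_le_mul_of_nonneg_left hF (by positivity : 0 ≤ 3 * (Q / ρ ^ 2))
  have m2 := mul_le_mul_of_nonneg_left hE (by positivity : 0 ≤ 3 * (Q / ρ))
  have m3 : 3 * (Q / ρ) * (c2 + e2) ≤ 3 * (Q / ρ ^ 2) * (c2 + e2) := by gcongr
  have m5 : (3 + 48 / d + 3) * (Q / ρ ^ 2) * (Rem (d / 8) x + c2 + e2) =
      3 * (Q / ρ ^ 2) * (Rem (d / 8) x + 16 / d * c2) +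
      3 * (Q / ρ ^ 2) * (c2 + e2) +
      (Q / ρ ^ 2) * (3 * (c2 + e2) + 48 / d * (Rem (d / 8) x + e2) +
        3 * Rem (d / 8) x) := by ring
  have m6 : 0 ≤ (Q / ρ ^ 2) * (3 * (c2 + e2) + 48 / d * (Rem (d / 8) x + e2) +
        3 * Rem (d / 8) x) := by positivity
  rw [m5]
  linarith

end Pool.Agent.Helper33.HV
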