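import Pool.Agent.Helper33.HV.GEN2

/-!
# HV: Lipschitz bounds
-/

set_option autoImplicit false

namespace Pool.Agent.Helper33.HV

open MeasureTheory Filter Pool.Agent.Helper95.PW Pool.Agent.Helper95.LN Pool.Agent.Helper95.CF
open Pool.Agent.Helper95.HV Pool.Agent.Helper53.LN
open Pool.Agent.Helper14.PW

theorem nr_norm (y : R3) : ‖y‖ ≤ nr y := by
  refine (pi_norm_le_iff_of_nonneg (VIR_nr0 y)).2 fun m => ?_
  exact VIR_comp y m

/-- bounded partial derivatives give a Lipschitz bound -/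
theorem lip {h : R3 → ℝ} {B : ℝ} (hB : 0 ≤ B) (hh : Differentiable ℝ h)
    (hb : ∀ i y, |pd i h y| ≤ B) (x y : R3) : |h x - h y| ≤ 3 * B * nr (x - y) := by
  have h1 : ∀ w : R3, ‖fderiv ℝ h w‖ ≤ 3 * B := by
    intro w
    refine ContinuousLinearMap.opNorm_le_bound _ (by positivity) fun v => ?_
    have h2 : fderiv ℝ h w v = ∑ i, v i * pd i h w := poe_fderiv w v
    rw [h2, Fin.sum_univ_three]
    have h3 : ∀ i, |v i * pd i h w| ≤ B * ‖v‖ := by
      intro i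
      rw [abs_mul, mul_comm]
      refine mul_le_mul (hb i w) (norm_le_pi_norm v i) (abs_nonneg _) hB
    rw [Real.norm_eq_abs]
    have h4 := abs_add_three (v 0 * pd 0 h w) (v 1 * pd 1 h w) (v 2 * pd 2 h w)
    linarith [h3 0, h3 1, h3 2]
  have h5 := Convex.norm_image_sub_le_of_norm_fderiv_le (𝕜 := ℝ) (f := h) (s := Set.univ)
    (x := y) (y := x) (C := 3 * B) (fun w _ => hh w) (fun w _ => h1 w) convex_univ
    (Set.mem_univ _) (Set.mem_univ _)
  rw [Real.norm_eq_abs] at h5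
  refine h5.trans ?_
  exact mul_le_mul_of_nonneg_left (nr_norm (x - y)) (by positivity)

theorem scale_nonneg {g : R3 → ℝ} {K r : ℝ} (hS : Scale g K r) : 0 ≤ K :=
  (abs_nonneg _).trans (hS.d1 0 0)

theorem gv_bd {g : R3 → ℝ} {K r : ℝ} (hS : Scale g K r) (y : R3) (m : Fin 3) :
    |gv g y m| ≤ K := hS.d1 m y

theorem gv_lip {g : R3 → ℝ} {K r : ℝ} (hr : 0 < r) (hS : Scale g K r) (x y : R3) (m : Fin 3) :
    |gv g x m - gv g y m| ≤ 3 * K / r * nr (x - y) := by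
  have hK := scale_nonneg hS
  have h1 := lip (h := pd m g) (B := K / r) (by positivity)
    ((poe_pd_cd hS.sm m).differentiable (by simp)) (fun i w => hS.d2 i m w) x y
  have e1 : 3 * K / r = 3 * (K / r) := by ring
  rw [e1]
  exact h1

/-- product of a Hessian with a gradient -/
noncomputable def hq (f g : R3 → ℝ) (y : R3) : R3 := fun i => ∑ l, pd l (pd i f) y * pd l g y

theorem hq_self (g : R3 → ℝ) (y : R3) : hq g g y = gq g y := rfl

theorem hq_bd {f g : R3 → ℝ} {K r A : ℝ} (hr : 0 < r) (hS : Scale f K r)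
    (hg : ∀ i y, |pd i g y| ≤ A) (y : R3) (i : Fin 3) : |hq f g y i| ≤ 3 * (K * A) / r := by
  have hK := scale_nonneg hS
  have hA : 0 ≤ A := (abs_nonneg _).trans (hg 0 0)
  have h1 : ∀ l, |pd l (pd i f) y * pd l g y| ≤ K / r * A := by
    intro l
    rw [abs_mul]
    exact mul_le_mul (hS.d2 l i y) (hg l y) (abs_nonneg _) (by positivity)
  unfold hq
  rw [Fin.sum_univ_three]
  have h4 := abs_add_three (pd 0 (pd i f) y * pd 0 g y) (pd 1 (pd i f) y * pd 1 g y)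
    (pd 2 (pd i f) y * pd 2 g y)
  have e1 : 3 * (K * A) / r = 3 * (K / r * A) := by ring
  rw [e1]
  linarith [h1 0, h1 1, h1 2]

theorem pd_mul_sum {f g : R3 → ℝ} (hf : ContDiff ℝ (⊤ : ℕ∞) f) (hg : ContDiff ℝ (⊤ : ℕ∞) g)
    (i j : Fin 3) (y : R3) : pd j (fun y => hq f g y i) y =
      ∑ l, (pd j (pd l (pd i f)) y * pd l g y + pd l (pd i f) y * pd j (pd l g) y) := by
  have h1 : ∀ l, DifferentiableAt ℝ (pd l (pd i f)) y := fun l =>
    (poe_pd_cd (poe_pd_cd hf i) l).differentiable (by simp) y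
  have h2 : ∀ l, DifferentiableAt ℝ (pd l g) y := fun l =>
    (poe_pd_cd hg l).differentiable (by simp) y
  unfold hq
  unfold pd
  rw [fderiv_fun_sum (fun l _ => by
    have a1 := h1 l
    have a2 := h2 l
    unfold pd at a1 a2
    exact a1.mul a2)]
  rw [sum_apply]
  refine Finset.sum_congr rfl fun l _ => ?_
  have a1 := h1 l
  have a2 := h2 l
  unfold pd at a1 a2
  rw [fderiv_fun_mul a1 a2]
  simp only [add_apply, smul_apply, smul_eq_mul]
  ring

theorem hq_lip {f g : R3 → ℝ} {K r A B : ℝ} (hr : 0 < r) (hS : Scale f K r)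
    (hgs : ContDiff ℝ (⊤ : ℕ∞) g) (hg : ∀ i y, |pd i g y| ≤ A)
    (hg2 : ∀ i j y, |pd i (pd j g) y| ≤ B) (x y : R3) (i : Fin 3) :
    |hq f g x i - hq f g y i| ≤ 9 * (K / r ^ 2 * A + K / r * B) * nr (x - y) := by
  have hK := scale_nonneg hS
  have hA : 0 ≤ A := (abs_nonneg _).trans (hg 0 0)
  have hB : 0 ≤ B := (abs_nonneg _).trans (hg2 0 0 0)
  have hd : Differentiable ℝ (fun y => hq f g y i) := by
    intro w
    unfold hq
    refine DifferentiableAt.fun_sum fun l _ => ?_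
    exact ((poe_pd_cd (poe_pd_cd hS.sm i) l).differentiable (by simp) w).mul
      ((poe_pd_cd hgs l).differentiable (by simp) w)
  have h1 := lip (h := fun y => hq f g y i) (B := 3 * (K / r ^ 2 * A + K / r * B))
    (by positivity) hd (fun j w => by
      rw [pd_mul_sum hS.sm hgs, Fin.sum_univ_three]
      have h2 : ∀ l, |pd j (pd l (pd i f)) w * pd l g w + pd l (pd i f) w * pd j (pd l g) w| ≤
          K / r ^ 2 * A + K / r * B := by
        intro l
        refine (abs_add_le _ _).trans (add_le_add ?_ ?_)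
        · rw [abs_mul]
          exact mul_le_mul (hS.d3 j l i w) (hg l w) (abs_nonneg _) (by positivity)
        · rw [abs_mul]
          exact mul_le_mul (hS.d2 l i w) (hg2 j l w) (abs_nonneg _) (by positivity)
      refine (abs_add_three _ _ _).trans ?_
      linarith [h2 0, h2 1, h2 2]) x y
  refine h1.trans (le_of_eq ?_)
  ring

theorem gq_bd {g : R3 → ℝ} {K r : ℝ} (hr : 0 < r) (hS : Scale g K r) (y : R3) (m : Fin 3) :
    |gq g y m| ≤ 18 * K ^ 2 / r := by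
  have hK := scale_nonneg hS
  have h1 := hq_bd hr hS hS.d1 y m
  rw [hq_self] at h1
  refine h1.trans ?_
  rw [div_le_div_iff_of_pos_right hr]
  nlinarith [sq_nonneg K]

theorem gq_lip {g : R3 → ℝ} {K r : ℝ} (hr : 0 < r) (hS : Scale g K r) (x y : R3) (m : Fin 3) :
    |gq g x m - gq g y m| ≤ 18 * K ^ 2 / r ^ 2 * nr (x - y) := by
  have h1 := hq_lip hr hS hS.sm hS.d1 hS.d2 x y m
  rw [hq_self, hq_self] at h1
  refine h1.trans (le_of_eq ?_)
  field_simp
  ring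

/-- general bound -/
theorem Tq_abs {ξ v w : R3} {A B : ℝ} (hξ : nr ξ ≠ 0) (hA : 0 ≤ A) (hv : ∀ m, |v m| ≤ A)
    (hw : ∀ m, |w m| ≤ B) : |Tq ξ v w| ≤ 30 * (A * B) / nr ξ ^ 3 := by
  have hr : 0 < nr ξ := lt_of_le_of_ne (VIR_nr0 _) (Ne.symm hξ)
  have hB : 0 ≤ B := (abs_nonneg _).trans (hw 0)
  have h1 : |∑ m, v m * ξ m| ≤ 3 * A * nr ξ := by
    rw [Fin.sum_univ_three]
    have : ∀ m, |v m * ξ m| ≤ A * nr ξ := fun m => by
      rw [abs_mul]
      exact mul_le_mul (hv m) (VIR_comp ξ m) (abs_nonneg _) hA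
    refine (abs_add_three _ _ _).trans ?_
    linarith [this 0, this 1, this 2]
  have h2 : |∑ m, w m * ξ m| ≤ 3 * B * nr ξ := by
    rw [Fin.sum_univ_three]
    have : ∀ m, |w m * ξ m| ≤ B * nr ξ := fun m => by
      rw [abs_mul]
      exact mul_le_mul (hw m) (VIR_comp ξ m) (abs_nonneg _) hB
    refine (abs_add_three _ _ _).trans ?_
    linarith [this 0, this 1, this 2]
  have h3 : |∑ m, v m * w m| ≤ 3 * (A * B) := by
    rw [Fin.sum_univ_three]
    have : ∀ m, |v m * w m| ≤ A * B := fun m => by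
      rw [abs_mul]
      exact mul_le_mul (hv m) (hw m) (abs_nonneg _) hA
    refine (abs_add_three _ _ _).trans ?_
    linarith [this 0, this 1, this 2]
  unfold Tq
  refine (abs_sub _ _).trans ?_
  rw [abs_div, abs_div, abs_mul, abs_mul, abs_of_pos (by positivity : (0 : ℝ) < nr ξ ^ 5),
    abs_of_pos (by positivity : (0 : ℝ) < nr ξ ^ 3), abs_of_pos (by norm_num : (0 : ℝ) < 3)]
  have e1 : 3 * |∑ m, v m * ξ m| * |∑ m, w m * ξ m| / nr ξ ^ 5 ≤ 27 * (A * B) / nr ξ ^ 3 := by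
    have : 3 * |∑ m, v m * ξ m| * |∑ m, w m * ξ m| ≤ 3 * (3 * A * nr ξ) * (3 * B * nr ξ) := by
      gcongr
    calc 3 * |∑ m, v m * ξ m| * |∑ m, w m * ξ m| / nr ξ ^ 5
        ≤ 3 * (3 * A * nr ξ) * (3 * B * nr ξ) / nr ξ ^ 5 := by gcongr
      _ = 27 * (A * B) / nr ξ ^ 3 := by
        field_simp
        ring
  have e2 : |∑ m, v m * w m| / nr ξ ^ 3 ≤ 3 * (A * B) / nr ξ ^ 3 := by gcongr
  have e3 : 30 * (A * B) / nr ξ ^ 3 = 27 * (A * B) / nr ξ ^ 3 + 3 * (A * B) / nr ξ ^ 3 := by ring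
  linarith

theorem fo_abs {ξ q : R3} {A : ℝ} (hξ : nr ξ ≠ 0) (hq : ∀ m, |q m| ≤ A) :
    |fo q ξ| ≤ 3 * A / nr ξ ^ 2 := by
  have hr : 0 < nr ξ := lt_of_le_of_ne (VIR_nr0 _) (Ne.symm hξ)
  have hA : 0 ≤ A := (abs_nonneg _).trans (hq 0)
  unfold fo
  rw [abs_div, abs_of_pos (by positivity : (0 : ℝ) < nr ξ ^ 3), div_le_div_iff₀ (by positivity)
    (by positivity), Fin.sum_univ_three]
  have : ∀ m, |q m * ξ m| ≤ A * nr ξ := fun m => by
    rw [abs_mul]
    exact mul_le_mul (hq m) (VIR_comp ξ m) (abs_nonneg _) hA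
  have h4 := abs_add_three (q 0 * ξ 0) (q 1 * ξ 1) (q 2 * ξ 2)
  have h5 : |q 0 * ξ 0 + q 1 * ξ 1 + q 2 * ξ 2| ≤ 3 * A * nr ξ := by
    linarith [this 0, this 1, this 2]
  calc |q 0 * ξ 0 + q 1 * ξ 1 + q 2 * ξ 2| * nr ξ ^ 2 ≤ 3 * A * nr ξ * nr ξ ^ 2 := by gcongr
    _ = 3 * A * nr ξ ^ 3 := by ring

end Pool.Agent.Helper33.HV
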