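import Pool.Agent.Helper33.HV.ARR

/-!
# HV: the general form of V2R
-/

set_option autoImplicit false

namespace Pool.Agent.Helper33.HV

open MeasureTheory Filter Topology Pool.Agent.Helper95.PW Pool.Agent.Helper95.LN
open Pool.Agent.Helper95.CF
open Pool.Agent.Helper95.HV Pool.Agent.Helper53.LN
open Pool.Agent.Helper14.PW
open Pool.Agent.Helper82.PN (pgb_tri)

theorem hq_zero {f g : R3 → ℝ} {y : R3} (h : ∀ i l, pd l (pd i f) y = 0) : hq f g y = 0 := by
  funext i
  unfold hq
  simp [h i]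

theorem gq_zero' {f : R3 → ℝ} {y : R3} (h : ∀ i l, pd l (pd i f) y = 0) : gq f y = 0 := by
  rw [← hq_self]
  exact hq_zero h

theorem V2G (hNB : ST_NBZ) (hFF : ST_FFZ) (hFGZ : ST_FGZ) (hDIP : ST_DIP) (hKK : ST_KK)
    (hFLD : ST_FLD) (hCUT : ST_CUT) : ∀ d : ℝ, 0 < d → d ≤ 1 → ∃ C K2 : ℝ, 0 < C ∧ 1 ≤ K2 ∧
    ∀ (z L : ℝ) (n M : ℕ) (X : Fin M → R3) (Z : Fin M → ℝ) (x : Cf n), Dat d z n X Z → 1 ≤ L →
    (∀ j, 2 * nr (X j) + 4 ≤ L) → Dist X x →
    (∀ m k i, |gv (gN X m (d / 8)) (x k) i| ≤ K2) ∧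
    (∀ m k, (∀ i, d / 2 < nr (x k - X i)) → gv (gN X m (d / 8)) (x k) = 0) ∧
    0 ≤ Dn (d / 8) X Z x ∧ 0 ≤ Rem (d / 8) x ∧
    ∑ m, D2 X Z (fun y => gm m L y - gN X m (d / 8) y) x ≤
      C * Loc d z X Z x + C / L * (rep x + ∑ k, pot X Z (x k)) +
      2 * ∑ m, ∑ i, ∑ k, (if nr (x k - X i) ≤ d / 2 then (∑ j, if j = i then 0 else
        Z j * Tq (x k - X j) (ev m) (gv (gN X m (d / 8)) (x k))) else 0) := by
  intro d hd hd1
  obtain ⟨K1, hK1, HC, -⟩ := hCUT
  obtain ⟨K2, hK2, HF⟩ := hFLD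
  obtain ⟨C1, hC1, H1⟩ := ARR hDIP hFGZ hKK d hd hd1
  obtain ⟨C3, hC3, H3⟩ := hNB d hd hd1
  obtain ⟨C4, hC4, H4⟩ := hFF d hd hd1
  obtain ⟨K, hKdef⟩ : ∃ K : ℝ, K = max K1 K2 := ⟨_, rfl⟩
  have hKK1 : K1 ≤ K := by rw [hKdef]; exact le_max_left _ _
  have hKK2 : K2 ≤ K := by rw [hKdef]; exact le_max_right _ _
  have hK1' : 1 ≤ K := hK1.trans hKK1
  have hK0 : 0 ≤ K := by linarith
  obtain ⟨ρ, hρdef⟩ : ∃ ρ : ℝ, ρ = d / 8 := ⟨_, rfl⟩
  have hρ : 0 < ρ := by rw [hρdef]; positivity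
  have hρd : ρ ≤ d := by rw [hρdef]; linarith
  have hρ1 : ρ ≤ 1 := hρd.trans hd1
  refine ⟨3 * C1 * (K ^ 2 / ρ ^ 2) * (1 + C3 + C4) + 2592 * (K ^ 2 / ρ) + 684 * K ^ 2 +
    594 * (K ^ 2 / ρ ^ 2), K, by positivity, hK1', ?_⟩
  intro z L n M X Z x hDat hL hXL hD
  have hS := hDat.sep
  have hL0 : 0 < L := by linarith
  have hz0 : 0 < z := lt_of_lt_of_le one_pos hDat.z1
  have hZ0 : ∀ j, 0 ≤ Z j := hDat.nuc.1
  have sG : ∀ m, Scale (gm m L) K L := fun m => scale_mono hL0 hKK1 (HC m L hL0).1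
  have hF : ∀ m, Scale (gN X m ρ) K ρ ∧
      (∀ j y, nr (y - X j) < ρ → ∀ i, pd i (gN X m ρ) y = if i = m then 1 else 0) ∧
      (∀ y, (∀ j, 2 * ρ < nr (y - X j)) → ∀ i, pd i (gN X m ρ) y = 0) := by
    intro m
    obtain ⟨a1, -, a3, a4, -⟩ := HF M X d ρ ρ m hd hS hρ le_rfl (by rw [hρdef]; linarith)
    exact ⟨scale_mono hρ hKK2 a1, a3, a4⟩
  -- the fields
  have hGin : ∀ m y, nr y < L → gv (gm m L) y = ev m ∧ ∀ i l, pd l (pd i (gm m L)) y = 0 :=
    fun m y hy => gm_in (HC m L hL0).2.1 hy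
  have hNin : ∀ m j y, nr (y - X j) < ρ → gv (gN X m ρ) y = ev m ∧
      ∀ i l, pd l (pd i (gN X m ρ)) y = 0 := by
    intro m j y hy
    refine ⟨funext fun i => (hF m).2.1 j y hy i, fun i l => ?_⟩
    have hU : IsOpen {w : R3 | nr (w - X j) < ρ} :=
      isOpen_lt (nr_cont.comp (continuous_id.sub continuous_const)) continuous_const
    exact hess_zero hU (fun w hw => (hF m).2.1 j w hw i) l hy
  have hNout : ∀ m y, (∀ j, 2 * ρ < nr (y - X j)) → gv (gN X m ρ) y = 0 ∧
      ∀ i l, pd l (pd i (gN X m ρ)) y = 0 := by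
    intro m y hy
    refine ⟨funext fun i => (hF m).2.2 y hy i, fun i l => ?_⟩
    have hU : IsOpen (⋂ j, {w : R3 | 2 * ρ < nr (w - X j)}) :=
      isOpen_iInter_of_finite fun j =>
        isOpen_lt continuous_const (nr_cont.comp (continuous_id.sub continuous_const))
    refine hess_zero hU (c := 0) (fun w hw => (hF m).2.2 w (fun j => ?_) i) l ?_
    · exact Set.mem_iInter.1 hw j
    · exact Set.mem_iInter.2 hy
  have hnL : ∀ y i, nr (y - X i) ≤ d / 2 → nr y < L := by
    intro y i hy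
    have h1 := pgb_tri y 0 (X i)
    rw [sub_zero, sub_zero, VIR_sym (X i) y] at h1
    have h2 := hXL i
    have h3 := VIR_nr0 (X i)
    linarith
  obtain ⟨g, hg⟩ : ∃ g : Fin 3 → R3 → ℝ, g = fun m y => gm m L y - gN X m ρ y := ⟨_, rfl⟩
  have hgm : ∀ m, (fun y => gm m L y - gN X m ρ y) = g m := fun m => by rw [hg]
  have hgs : ∀ m, ContDiff ℝ (⊤ : ℕ∞) (g m) := fun m => by
    rw [hg]
    exact (sG m).sm.sub (hF m).1.sm
  have hpd : ∀ m i, pd i (g m) = fun y => pd i (gm m L) y - pd i (gN X m ρ) y := fun m i => by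
    rw [← hgm]
    exact pd_sub (sG m).sm (hF m).1.sm i
  have hpd2 : ∀ m i l, pd l (pd i (g m)) =
      fun y => pd l (pd i (gm m L)) y - pd l (pd i (gN X m ρ)) y := fun m i l => by
    rw [hpd]
    exact pd_sub (poe_pd_cd (sG m).sm i) (poe_pd_cd (hF m).1.sm i) l
  have hgv : ∀ m y, gv (g m) y = gv (gm m L) y - gv (gN X m ρ) y := fun m y => by
    funext i
    show pd i (g m) y = _
    rw [hpd]
    rfl
  have hgq : ∀ m y, gq (g m) y = gq (gm m L) y + -hq (gN X m ρ) (g m) y := fun m y => by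
    funext i
    have h0 : ∀ l, pd l (pd i (gm m L)) y * pd l (gN X m ρ) y = 0 := by
      intro l
      by_cases h : ∀ j, 2 * ρ < nr (y - X j)
      · rw [(hF m).2.2 y h l, mul_zero]
      · push Not at h
        obtain ⟨j, hj⟩ := h
        have h1 : nr y < L := hnL y j (by rw [hρdef] at hj; linarith)
        rw [(hGin m y h1).2 i l, zero_mul]
    show (∑ l, pd l (pd i (g m)) y * pd l (g m) y) =
      (∑ l, pd l (pd i (gm m L)) y * pd l (gm m L) y) +
        -(∑ l, pd l (pd i (gN X m ρ)) y * pd l (g m) y)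
    rw [← Finset.sum_neg_distrib, ← Finset.sum_add_distrib]
    refine Finset.sum_congr rfl fun l _ => ?_
    have h1 := h0 l
    rw [hpd2, hpd]
    dsimp only
    linear_combination -h1
  have hgb : ∀ m i y, |pd i (g m) y| ≤ 2 * K := by
    intro m i y
    rw [hpd]
    have h1 := (sG m).d1 i y
    have h2 := (hF m).1.d1 i y
    refine (abs_sub _ _).trans ?_
    linarith
  have hgb2 : ∀ m i j y, |pd i (pd j (g m)) y| ≤ 2 * K / ρ := by
    intro m i j y
    rw [hpd2]
    have h1 := (sG m).d2 i j y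
    have h2 := (hF m).1.d2 i j y
    have h3 : K / L ≤ K / ρ := by
      apply div_le_div_of_nonneg_left hK0 hρ
      linarith
    refine (abs_sub _ _).trans ?_
    have e1 : 2 * K / ρ = K / ρ + K / ρ := by ring
    rw [e1]
    linarith
  have hA0 : ∀ m k, (∀ i, d / 2 < nr (x k - X i)) → gv (gN X m ρ) (x k) = 0 := by
    intro m k h
    refine (hNout m _ fun j => ?_).1
    have := h j
    rw [hρdef]
    linarith
  have hq0 : ∀ m k, (∀ i, d / 2 < nr (x k - X i)) → -hq (gN X m ρ) (g m) (x k) = 0 := by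
    intro m k h
    rw [hq_zero, neg_zero]
    refine (hNout m _ fun j => ?_).2
    have := h j
    rw [hρdef]
    linarith
  have hq1 : ∀ m k i, |(-hq (gN X m ρ) (g m) (x k)) i| ≤ 36 * K ^ 2 / ρ := by
    intro m k i
    rw [Pi.neg_apply, abs_neg]
    refine (hq_bd hρ (hF m).1 (hgb m) (x k) i).trans ?_
    rw [div_le_div_iff_of_pos_right hρ]
    nlinarith [sq_nonneg K]
  have hq2 : ∀ m k l i, |(-hq (gN X m ρ) (g m) (x k)) i - (-hq (gN X m ρ) (g m) (x l)) i| ≤
      36 * K ^ 2 / ρ ^ 2 * nr (x k - x l) := by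
    intro m k l i
    have h1 := hq_lip hρ (hF m).1 (hgs m) (hgb m) (hgb2 m) (x l) (x k) i
    rw [Pi.neg_apply, Pi.neg_apply]
    have e1 : -hq (gN X m ρ) (g m) (x k) i - -hq (gN X m ρ) (g m) (x l) i =
        hq (gN X m ρ) (g m) (x l) i - hq (gN X m ρ) (g m) (x k) i := by ring
    rw [e1, VIR_sym (x k) (x l)]
    refine h1.trans (le_of_eq ?_)
    field_simp
    ring
  have hR : 0 ≤ Rem (d / 8) x := by
    unfold Rem
    refine Finset.sum_nonneg fun k _ => Finset.sum_nonneg fun l _ => ?_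
    split_ifs with h
    · have := (hKK (d / 8) (x k - x l) (by positivity)).2.1 (hD.1 k l h.ne)
      linarith
    · exact le_rfl
  have hDn : 0 ≤ Dn (d / 8) X Z x := VIR_Dn _ _ _ _
  rw [← hρdef]
  refine ⟨fun m k i => (hF m).1.d1 i (x k), hA0, by rw [hρdef]; exact hDn,
    by rw [hρdef]; exact hR, ?_⟩
  obtain ⟨e, he, he2⟩ := H4 z n M X Z x hDat
  have hc2 := H3 z n M X Z x hDat
  -- apply ARR
  have hm : ∀ m, D2 X Z (fun y => gm m L y - gN X m ρ y) x ≤
      C1 * (K ^ 2 / ρ ^ 2) * (Rem (d / 8) x + ∑ i, cnt X (3 / 2 * d) x i ^ 2 + ∑ i, e i ^ 2) +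
      864 * (K ^ 2 / (ρ * L)) * rep x +
      (∑ k, ∑ j, Z j * (fo (gq (gm m L) (x k)) (x k - X j) -
        Tq (x k - X j) (gv (gm m L) (x k)) (gv (gm m L) (x k)))) +
      2 * (∑ k, ∑ i, sw X (3 / 2 * d) x i k * ∑ j, (if j = i then 0 else Z j *
        Tq (x k - X j) (gv (gm m L) (x k)) (gv (gN X m ρ) (x k)))) +
      ∑ k, ∑ i, sw X (3 / 2 * d) x i k * (Z i *
        (fo (-hq (gN X m ρ) (g m) (x k)) (x k - X i) -
        Tq (x k - X i) (gv (gN X m ρ) (x k)) (gv (gN X m ρ) (x k)) +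
        2 * Tq (x k - X i) (gv (gm m L) (x k)) (gv (gN X m ρ) (x k)))) := by
    intro m
    rw [hgm, D2_DA]
    have e1 : (fun k => gv (g m) (x k)) =
        fun k => gv (gm m L) (x k) - gv (gN X m ρ) (x k) := funext fun k => hgv m (x k)
    have e2 : (fun k => gq (g m) (x k)) =
        fun k => gq (gm m L) (x k) + -hq (gN X m ρ) (g m) (x k) := funext fun k => hgq m (x k)
    rw [e1, e2]
    exact H1 n M X Z x (fun k => gv (gm m L) (x k)) (fun k => gv (gN X m ρ) (x k))
      (fun k => gq (gm m L) (x k)) (fun k => -hq (gN X m ρ) (g m) (x k)) K L ρ e hS hK0 hL hρ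
      hρd hD (fun k l i => gv_lip hL0 (sG m) (x k) (x l) i)
      (fun k l i => gq_lip hL0 (sG m) (x k) (x l) i) (fun k i => gv_bd (hF m).1 (x k) i)
      (hA0 m) (fun k l i => gv_lip hρ (hF m).1 (x k) (x l) i) (hq1 m) (hq0 m) (hq2 m) he
  -- nuclear terms, large scale
  have hP : ∀ k, ∑ m, ∑ j, Z j * (fo (gq (gm m L) (x k)) (x k - X j) -
        Tq (x k - X j) (gv (gm m L) (x k)) (gv (gm m L) (x k))) ≤
        684 * (K ^ 2 / L) * pot X Z (x k) := by
    intro k
    unfold pot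
    rw [Finset.sum_comm, Finset.mul_sum]
    refine Finset.sum_le_sum fun j _ => ?_
    have hr0 : nr (x k - X j) ≠ 0 := hD.2 k j
    have hr : 0 < nr (x k - X j) := lt_of_le_of_ne (VIR_nr0 _) (Ne.symm hr0)
    rw [← Finset.mul_sum]
    have h1 : ∑ m, (fo (gq (gm m L) (x k)) (x k - X j) -
        Tq (x k - X j) (gv (gm m L) (x k)) (gv (gm m L) (x k))) ≤
        684 * (K ^ 2 / L) * (1 / nr (x k - X j)) := by
      by_cases hx : nr (x k) < L
      · have h2 : ∀ m, fo (gq (gm m L) (x k)) (x k - X j) -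
            Tq (x k - X j) (gv (gm m L) (x k)) (gv (gm m L) (x k)) =
            -Tq (x k - X j) (ev m) (ev m) := by
          intro m
          rw [(hGin m (x k) hx).1, gq_zero' (hGin m (x k) hx).2, fo_zero]
          ring
        rw [Finset.sum_congr rfl (fun m _ => h2 m), Finset.sum_neg_distrib, trace_zero hr0]
        rw [neg_zero]
        positivity
      · push Not at hx
        have hRL : L / 2 ≤ nr (x k - X j) := by
          have h3 := pgb_tri (x k) 0 (X j)
          rw [sub_zero, sub_zero, VIR_sym (X j) (x k)] at h3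
          have h4 := hXL j
          linarith
        have h2 : ∀ m, fo (gq (gm m L) (x k)) (x k - X j) -
            Tq (x k - X j) (gv (gm m L) (x k)) (gv (gm m L) (x k)) ≤
            228 * (K ^ 2 / L) * (1 / nr (x k - X j)) := by
          intro m
          have h3 := (le_abs_self _).trans (fo_abs hr0 (fun i => gq_bd hL0 (sG m) (x k) i))
          have h4 := (neg_le_abs _).trans (Tq_abs hr0 hK0 (fun i => gv_bd (sG m) (x k) i)
            (fun i => gv_bd (sG m) (x k) i))
          have h5 : 1 / nr (x k - X j) ≤ 2 / L := by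
            rw [div_le_div_iff₀ hr hL0]
            linarith
          have h6 : 2 / L ≤ 2 := by
            rw [div_le_iff₀ hL0]
            linarith
          have e1 : 3 * (18 * K ^ 2 / L) / nr (x k - X j) ^ 2 =
              54 * (K ^ 2 / L) * (1 / nr (x k - X j)) * (1 / nr (x k - X j)) := by
            field_simp
            ring
          have e2 : 30 * (K * K) / nr (x k - X j) ^ 3 =
              30 * K ^ 2 * (1 / nr (x k - X j)) * (1 / nr (x k - X j)) * (1 / nr (x k - X j)) := by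
            field_simp
          rw [e1] at h3
          rw [e2] at h4
          have h7 : 54 * (K ^ 2 / L) * (1 / nr (x k - X j)) * (1 / nr (x k - X j)) ≤
              54 * (K ^ 2 / L) * (1 / nr (x k - X j)) * 2 := by
            gcongr
            exact h5.trans h6
          have h8 : 30 * K ^ 2 * (1 / nr (x k - X j)) * (1 / nr (x k - X j)) *
              (1 / nr (x k - X j)) ≤ 30 * K ^ 2 * (1 / nr (x k - X j)) * (2 / L) * 2 := by
            gcongr
            exact h5.trans h6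
          have e3 : 30 * K ^ 2 * (1 / nr (x k - X j)) * (2 / L) * 2 =
              120 * (K ^ 2 / L) * (1 / nr (x k - X j)) := by
            field_simp
            ring
          linarith
        rw [Fin.sum_univ_three]
        linarith [h2 0, h2 1, h2 2]
    calc Z j * ∑ m, (fo (gq (gm m L) (x k)) (x k - X j) -
        Tq (x k - X j) (gv (gm m L) (x k)) (gv (gm m L) (x k)))
        ≤ Z j * (684 * (K ^ 2 / L) * (1 / nr (x k - X j))) :=
          mul_le_mul_of_nonneg_left h1 (hZ0 j)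
      _ = 684 * (K ^ 2 / L) * (Z j / nr (x k - X j)) := by ring
  -- own nuclei
  have hW : ∀ k, ∑ m, ∑ i, sw X (3 / 2 * d) x i k * (Z i *
        (fo (-hq (gN X m ρ) (g m) (x k)) (x k - X i) -
        Tq (x k - X i) (gv (gN X m ρ) (x k)) (gv (gN X m ρ) (x k)) +
        2 * Tq (x k - X i) (gv (gm m L) (x k)) (gv (gN X m ρ) (x k)))) ≤
        594 * (K ^ 2 / ρ ^ 2) * (z * near1 X d (x k)) := by
    intro k
    unfold near1
    rw [Finset.sum_comm, Finset.mul_sum, Finset.mul_sum]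
    refine Finset.sum_le_sum fun i _ => ?_
    rw [← Finset.mul_sum, ← Finset.mul_sum]
    have hr0 : nr (x k - X i) ≠ 0 := hD.2 k i
    have hr : 0 < nr (x k - X i) := lt_of_le_of_ne (VIR_nr0 _) (Ne.symm hr0)
    have hrhs : 0 ≤ 594 * (K ^ 2 / ρ ^ 2) *
        (z * (if nr (x k - X i) < d then 1 / nr (x k - X i) else 0)) := by
      split_ifs <;> positivity
    by_cases hs : nr (x k - X i) < 3 / 2 * d
    · have hs1 : sw X (3 / 2 * d) x i k = 1 := by
        unfold sw
        rw [if_pos hs]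
      rw [hs1, one_mul]
      by_cases h1 : nr (x k - X i) < ρ
      · have hx : nr (x k) < L := hnL (x k) i (by rw [hρdef] at h1; linarith)
        have h2 : ∀ m, (fo (-hq (gN X m ρ) (g m) (x k)) (x k - X i) -
            Tq (x k - X i) (gv (gN X m ρ) (x k)) (gv (gN X m ρ) (x k)) +
            2 * Tq (x k - X i) (gv (gm m L) (x k)) (gv (gN X m ρ) (x k))) =
            Tq (x k - X i) (ev m) (ev m) := by
          intro m
          rw [hq_zero (hNin m i (x k) h1).2, neg_zero, fo_zero, (hNin m i (x k) h1).1,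
            (hGin m (x k) hx).1]
          ring
        rw [Finset.sum_congr rfl (fun m _ => h2 m), trace_zero hr0, mul_zero]
        exact hrhs
      · push Not at h1
        by_cases h2 : nr (x k - X i) ≤ 2 * ρ
        · have h3 : nr (x k - X i) < d := by
            rw [hρdef] at h2
            linarith
          rw [if_pos h3]
          have h4 : ∀ m, (fo (-hq (gN X m ρ) (g m) (x k)) (x k - X i) -
            Tq (x k - X i) (gv (gN X m ρ) (x k)) (gv (gN X m ρ) (x k)) +
            2 * Tq (x k - X i) (gv (gm m L) (x k)) (gv (gN X m ρ) (x k))) ≤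
            198 * (K ^ 2 / ρ ^ 2) * (1 / nr (x k - X i)) := by
            intro m
            have a1 := (le_abs_self _).trans (fo_abs hr0 (fun i => hq1 m k i))
            have a2 := (neg_le_abs _).trans (Tq_abs hr0 hK0
              (fun i => gv_bd (hF m).1 (x k) i) (fun i => gv_bd (hF m).1 (x k) i))
            have a3 := (le_abs_self _).trans (Tq_abs hr0 hK0
              (fun i => gv_bd (sG m) (x k) i) (fun i => gv_bd (hF m).1 (x k) i))
            have a4 : 1 / nr (x k - X i) ≤ 1 / ρ := by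
              apply one_div_le_one_div_of_le hρ h1
            have e1 : 3 * (36 * K ^ 2 / ρ) / nr (x k - X i) ^ 2 =
                108 * (K ^ 2 / ρ) * (1 / nr (x k - X i)) * (1 / nr (x k - X i)) := by
              field_simp
              ring
            have e2 : 30 * (K * K) / nr (x k - X i) ^ 3 =
                30 * K ^ 2 * (1 / nr (x k - X i)) * (1 / nr (x k - X i)) *
                (1 / nr (x k - X i)) := by
              field_simp
            rw [e1] at a1
            rw [e2] at a2 a3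
            have b1 : 108 * (K ^ 2 / ρ) * (1 / nr (x k - X i)) * (1 / nr (x k - X i)) ≤
                108 * (K ^ 2 / ρ) * (1 / nr (x k - X i)) * (1 / ρ) := by gcongr
            have b2 : 30 * K ^ 2 * (1 / nr (x k - X i)) * (1 / nr (x k - X i)) *
                (1 / nr (x k - X i)) ≤ 30 * K ^ 2 * (1 / nr (x k - X i)) * (1 / ρ) *
                (1 / ρ) := by gcongr
            have e3 : 108 * (K ^ 2 / ρ) * (1 / nr (x k - X i)) * (1 / ρ) =
                108 * (K ^ 2 / ρ ^ 2) * (1 / nr (x k - X i)) := by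
              field_simp
            have e4 : 30 * K ^ 2 * (1 / nr (x k - X i)) * (1 / ρ) * (1 / ρ) =
                30 * (K ^ 2 / ρ ^ 2) * (1 / nr (x k - X i)) := by
              field_simp
            linarith
          have h5 : ∑ m, (fo (-hq (gN X m ρ) (g m) (x k)) (x k - X i) -
            Tq (x k - X i) (gv (gN X m ρ) (x k)) (gv (gN X m ρ) (x k)) +
            2 * Tq (x k - X i) (gv (gm m L) (x k)) (gv (gN X m ρ) (x k))) ≤
            594 * (K ^ 2 / ρ ^ 2) * (1 / nr (x k - X i)) := by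
            rw [Fin.sum_univ_three]
            linarith [h4 0, h4 1, h4 2]
          calc _ ≤ Z i * (594 * (K ^ 2 / ρ ^ 2) * (1 / nr (x k - X i))) :=
                mul_le_mul_of_nonneg_left h5 (hZ0 i)
            _ ≤ z * (594 * (K ^ 2 / ρ ^ 2) * (1 / nr (x k - X i))) :=
                mul_le_mul_of_nonneg_right (hDat.le i) (by positivity)
            _ = _ := by ring
        · push Not at h2
          have h3 : ∀ j, 2 * ρ < nr (x k - X j) := by
            intro j
            by_cases hj : j = i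
            · rw [hj]
              exact h2
            · have h4 := hS j i hj
              have h5 := pgb_tri (X j) (X i) (x k)
              rw [hρdef]
              linarith
          have h4 : ∀ m, (fo (-hq (gN X m ρ) (g m) (x k)) (x k - X i) -
            Tq (x k - X i) (gv (gN X m ρ) (x k)) (gv (gN X m ρ) (x k)) +
            2 * Tq (x k - X i) (gv (gm m L) (x k)) (gv (gN X m ρ) (x k))) = 0 := by
            intro m
            rw [hq_zero (hNout m (x k) h3).2, neg_zero, fo_zero, (hNout m (x k) h3).1, Tq_zero,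
              Tq_zr]
            ring
          rw [Finset.sum_congr rfl (fun m _ => h4 m), Finset.sum_const_zero, mul_zero]
          exact hrhs
    · have hs1 : sw X (3 / 2 * d) x i k = 0 := by
        unfold sw
        rw [if_neg hs]
      rw [hs1, zero_mul]
      exact hrhs
  -- cross terms
  have hX : ∀ m, (∑ k, ∑ i, sw X (3 / 2 * d) x i k * ∑ j, (if j = i then 0 else Z j *
        Tq (x k - X j) (gv (gm m L) (x k)) (gv (gN X m ρ) (x k)))) =
      ∑ i, ∑ k, (if nr (x k - X i) ≤ d / 2 then (∑ j, if j = i then 0 else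
        Z j * Tq (x k - X j) (ev m) (gv (gN X m ρ) (x k))) else 0) := by
    intro m
    rw [Finset.sum_comm]
    refine Finset.sum_congr rfl fun i _ => Finset.sum_congr rfl fun k _ => ?_
    by_cases h1 : nr (x k - X i) ≤ d / 2
    · rw [if_pos h1]
      have hs1 : sw X (3 / 2 * d) x i k = 1 := by
        unfold sw
        rw [if_pos (by linarith)]
      rw [hs1, one_mul, (hGin m (x k) (hnL (x k) i h1)).1]
    · rw [if_neg h1]
      push Not at h1
      by_cases hs : nr (x k - X i) < 3 / 2 * d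
      · have h3 : ∀ j, d / 2 < nr (x k - X j) := by
          intro j
          by_cases hj : j = i
          · rw [hj]
            exact h1
          · have h4 := hS j i hj
            have h5 := pgb_tri (X j) (X i) (x k)
            linarith
        rw [hA0 m k h3]
        simp [Tq_zr]
      · have hs1 : sw X (3 / 2 * d) x i k = 0 := by
          unfold sw
          rw [if_neg hs]
        rw [hs1, zero_mul]
  have hsum := Finset.sum_le_sum fun m (_ : m ∈ Finset.univ) => hm m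
  simp only [hX] at hsum
  rw [Finset.sum_add_distrib, Finset.sum_add_distrib, Finset.sum_add_distrib,
    Finset.sum_add_distrib, ← Finset.mul_sum] at hsum
  have hP' : ∑ m, ∑ k, ∑ j, Z j * (fo (gq (gm m L) (x k)) (x k - X j) -
        Tq (x k - X j) (gv (gm m L) (x k)) (gv (gm m L) (x k))) ≤
        684 * (K ^ 2 / L) * ∑ k, pot X Z (x k) := by
    rw [Finset.sum_comm, Finset.mul_sum]
    exact Finset.sum_le_sum fun k _ => hP k
  have hW' : ∑ m, ∑ k, ∑ i, sw X (3 / 2 * d) x i k * (Z i *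
        (fo (-hq (gN X m ρ) (g m) (x k)) (x k - X i) -
        Tq (x k - X i) (gv (gN X m ρ) (x k)) (gv (gN X m ρ) (x k)) +
        2 * Tq (x k - X i) (gv (gm m L) (x k)) (gv (gN X m ρ) (x k)))) ≤
        594 * (K ^ 2 / ρ ^ 2) * (z * ∑ k, near1 X d (x k)) := by
    rw [Finset.sum_comm, Finset.mul_sum, Finset.mul_sum]
    exact Finset.sum_le_sum fun k _ => hW k
  simp only [Finset.sum_const, Finset.card_univ, Fintype.card_fin, nsmul_eq_mul] at hsum
  obtain ⟨S, hSd⟩ : ∃ S : ℝ, S = z * ∑ k, near1 X d (x k) := ⟨_, rfl⟩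
  have hS0 : 0 ≤ S := by
    rw [hSd]
    refine mul_nonneg hz0.le (Finset.sum_nonneg fun k _ => Finset.sum_nonneg fun j _ => ?_)
    split_ifs
    · exact one_div_nonneg.2 (VIR_nr0 _)
    · exact le_rfl
  have hLoc : Loc d z X Z x = z ^ 2 * M + Dn (d / 8) X Z x + Rem (d / 8) x + S := by
    rw [hSd]
    rfl
  have hrep : 0 ≤ rep x := by
    unfold rep
    refine Finset.sum_nonneg fun k _ => Finset.sum_nonneg fun l _ => ?_
    split_ifs
    · exact one_div_nonneg.2 (VIR_nr0 _)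
    · exact le_rfl
  have hpot : 0 ≤ ∑ k, pot X Z (x k) := by
    refine Finset.sum_nonneg fun k _ => Finset.sum_nonneg fun j _ => ?_
    exact div_nonneg (hZ0 j) (VIR_nr0 _)
  have hzM : 0 ≤ z ^ 2 * M := by positivity
  rw [← hSd] at hW'
  obtain ⟨cr, hcr⟩ : ∃ cr : ℝ, cr = ∑ m, ∑ i, ∑ k, (if nr (x k - X i) ≤ d / 2 then
      (∑ j, if j = i then 0 else Z j * Tq (x k - X j) (ev m) (gv (gN X m ρ) (x k))) else 0) :=
    ⟨_, rfl⟩
  rw [← hcr]
  have hT : Rem (d / 8) x + ∑ i, cnt X (3 / 2 * d) x i ^ 2 + ∑ i, e i ^ 2 ≤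
      (1 + C3 + C4) * Loc d z X Z x := by
    rw [hLoc]
    nlinarith [mul_nonneg hC3.le hR, mul_nonneg hC3.le hS0, mul_nonneg hC4.le hR,
      mul_nonneg hC4.le hS0]
  have hLoc0 : 0 ≤ Loc d z X Z x := by
    rw [hLoc]
    positivity
  have hSL : S ≤ Loc d z X Z x := by
    rw [hLoc]
    linarith
  have q1 := mul_le_mul_of_nonneg_left hT (by positivity : 0 ≤ 3 * (C1 * (K ^ 2 / ρ ^ 2)))
  have q2 := mul_le_mul_of_nonneg_left hSL (by positivity : 0 ≤ 594 * (K ^ 2 / ρ ^ 2))
  have q3 : 3 * (864 * (K ^ 2 / (ρ * L)) * rep x) = 2592 * (K ^ 2 / ρ) / L * rep x := by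
    field_simp
    ring
  have q4 : 684 * (K ^ 2 / L) * ∑ k, pot X Z (x k) = 684 * K ^ 2 / L * ∑ k, pot X Z (x k) := by
    ring
  have q5 : 0 ≤ (2592 * (K ^ 2 / ρ) + 684 * K ^ 2) * Loc d z X Z x := by positivity
  have q6 : 0 ≤ (3 * C1 * (K ^ 2 / ρ ^ 2) * (1 + C3 + C4) + 684 * K ^ 2 +
      594 * (K ^ 2 / ρ ^ 2)) / L * rep x := by positivity
  have q7 : 0 ≤ (3 * C1 * (K ^ 2 / ρ ^ 2) * (1 + C3 + C4) + 2592 * (K ^ 2 / ρ) +
      594 * (K ^ 2 / ρ ^ 2)) / L * ∑ k, pot X Z (x k) := by positivity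
  have q8 : (3 * C1 * (K ^ 2 / ρ ^ 2) * (1 + C3 + C4) + 2592 * (K ^ 2 / ρ) + 684 * K ^ 2 +
      594 * (K ^ 2 / ρ ^ 2)) * Loc d z X Z x +
      (3 * C1 * (K ^ 2 / ρ ^ 2) * (1 + C3 + C4) + 2592 * (K ^ 2 / ρ) + 684 * K ^ 2 +
      594 * (K ^ 2 / ρ ^ 2)) / L * (rep x + ∑ k, pot X Z (x k)) + 2 * cr =
      3 * (C1 * (K ^ 2 / ρ ^ 2)) * ((1 + C3 + C4) * Loc d z X Z x) +
      594 * (K ^ 2 / ρ ^ 2) * Loc d z X Z x +
      (2592 * (K ^ 2 / ρ) + 684 * K ^ 2) * Loc d z X Z x +
      2592 * (K ^ 2 / ρ) / L * rep x +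
      (3 * C1 * (K ^ 2 / ρ ^ 2) * (1 + C3 + C4) + 684 * K ^ 2 +
        594 * (K ^ 2 / ρ ^ 2)) / L * rep x +
      684 * K ^ 2 / L * ∑ k, pot X Z (x k) +
      (3 * C1 * (K ^ 2 / ρ ^ 2) * (1 + C3 + C4) + 2592 * (K ^ 2 / ρ) +
        594 * (K ^ 2 / ρ ^ 2)) / L * ∑ k, pot X Z (x k) + 2 * cr := by ring
  rw [q8]
  rw [← Finset.mul_sum, ← hcr] at hsum
  push_cast at hsum
  linarith

end Pool.Agent.Helper33.HV
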