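import Pool.Agent.Helper33.HV.V2G

/-!
# Row V2R
-/

set_option autoImplicit false

namespace Pool.Agent.Helper33.HV

open MeasureTheory Filter Topology Pool.Agent.Helper95.PW Pool.Agent.Helper95.LN
open Pool.Agent.Helper95.CF Pool.Agent.Helper95.HV Pool.Agent.Helper53.LN
open Pool.Agent.Helper82.PN (pgb_tri)

/-- row V2R -/
theorem V2R (h1 : ST_NBZ) (h2 : ST_FFZ) (h3 : ST_FGZ) (h4 : ST_DIP) (h5 : ST_KK) (h6 : ST_FLD)
    (h7 : ST_CUT) : ST_V2R := by
  intro d hd hd1
  obtain ⟨C, K2, hC, hK2, H⟩ := V2G h1 h2 h3 h4 h5 h6 h7 d hd hd1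
  have hK20 : 0 < K2 := by linarith
  refine ⟨C + 1440 * K2, by positivity, ?_⟩
  intro z L Λ n M X Z x hDat hL hΛ hXL hΛ2 hD
  obtain ⟨a1, a2, a3, a4, a5⟩ := H z L n M X Z x hDat hL hXL hD
  have hS := hDat.sep
  have hL0 : 0 < L := by linarith
  have hz0 : 0 < z := lt_of_lt_of_le one_pos hDat.z1
  have hZ0 : ∀ j, 0 ≤ Z j := hDat.nuc.1
  have hc : ∀ m, (∑ i, ∑ k, (if nr (x k - X i) ≤ d / 2 then (∑ j, if j = i then 0 else
        Z j * Tq (x k - X j) (ev m) (gv (gN X m (d / 8)) (x k))) else 0)) ≤
        240 * K2 * (z * Λ * n) := by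
    intro m
    rw [Finset.sum_comm]
    have hk : ∀ k, (∑ i, (if nr (x k - X i) ≤ d / 2 then (∑ j, if j = i then 0 else
        Z j * Tq (x k - X j) (ev m) (gv (gN X m (d / 8)) (x k))) else 0)) ≤
        240 * K2 * (z * Λ) := by
      intro k
      have hp : 0 ≤ 240 * K2 * (z * Λ) := by positivity
      by_cases h : ∃ i, nr (x k - X i) ≤ d / 2
      · obtain ⟨i, hi⟩ := h
        rw [Finset.sum_eq_single i]
        · rw [if_pos hi]
          have hj : ∀ j, (if j = i then 0 else
              Z j * Tq (x k - X j) (ev m) (gv (gN X m (d / 8)) (x k))) ≤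
              240 * K2 * z * (if j = i then 0 else 1 / nr (X i - X j) ^ 3) := by
            intro j
            split_ifs with hji
            · simp
            · have h4 := hS i j (Ne.symm hji)
              have h5 := pgb_tri (X i) (X j) (x k)
              have hD0 : 0 < nr (X i - X j) := by linarith
              have hRh : nr (X i - X j) / 2 ≤ nr (x k - X j) := by linarith
              have hr : 0 < nr (x k - X j) := by linarith
              have h6 := (le_abs_self _).trans (Tq_abs hr.ne' zero_le_one (ev_bd m)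
                (fun i' => a1 m k i'))
              have h7 : 30 * (1 * K2) / nr (x k - X j) ^ 3 ≤
                  30 * (1 * K2) / (nr (X i - X j) / 2) ^ 3 := by gcongr
              have e1 : 30 * (1 * K2) / (nr (X i - X j) / 2) ^ 3 =
                  240 * K2 * (1 / nr (X i - X j) ^ 3) := by
                field_simp
                ring
              rw [e1] at h7
              have h8 : Tq (x k - X j) (ev m) (gv (gN X m (d / 8)) (x k)) ≤
                  240 * K2 * (1 / nr (X i - X j) ^ 3) := h6.trans h7
              calc Z j * Tq (x k - X j) (ev m) (gv (gN X m (d / 8)) (x k))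
                  ≤ Z j * (240 * K2 * (1 / nr (X i - X j) ^ 3)) :=
                    mul_le_mul_of_nonneg_left h8 (hZ0 j)
                _ ≤ z * (240 * K2 * (1 / nr (X i - X j) ^ 3)) :=
                    mul_le_mul_of_nonneg_right (hDat.le j) (by positivity)
                _ = _ := by ring
          refine (Finset.sum_le_sum fun j _ => hj j).trans ?_
          rw [← Finset.mul_sum]
          calc 240 * K2 * z * ∑ j, (if j = i then 0 else 1 / nr (X i - X j) ^ 3)
              ≤ 240 * K2 * z * Λ := mul_le_mul_of_nonneg_left (hΛ2 i) (by positivity)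
            _ = _ := by ring
        · intro j _ hj
          rw [if_neg]
          intro h'
          have h4 := hS j i hj
          have h5 := pgb_tri (X j) (X i) (x k)
          linarith
        · intro h
          exact absurd (Finset.mem_univ _) h
      · push Not at h
        rw [Finset.sum_eq_zero]
        · exact hp
        · intro i _
          rw [if_neg (not_le.2 (h i))]
    refine (Finset.sum_le_sum fun k _ => hk k).trans (le_of_eq ?_)
    rw [Finset.sum_const, Finset.card_univ, Fintype.card_fin, nsmul_eq_mul]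
    ring
  have hs := Finset.sum_le_sum fun m (_ : m ∈ Finset.univ) => hc m
  simp only [Finset.sum_const, Finset.card_univ, Fintype.card_fin, nsmul_eq_mul] at hs
  push_cast at hs
  have hrep : 0 ≤ rep x := by
    unfold rep
    refine Finset.sum_nonneg fun k _ => Finset.sum_nonneg fun l _ => ?_
    split_ifs
    · exact one_div_nonneg.2 (Real.sqrt_nonneg _)
    · exact le_rfl
  have hpot : 0 ≤ ∑ k, pot X Z (x k) := by
    refine Finset.sum_nonneg fun k _ => Finset.sum_nonneg fun j _ => ?_
    exact div_nonneg (hZ0 j) (Real.sqrt_nonneg _)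
  have hn1 : 0 ≤ ∑ k, near1 X d (x k) := by
    refine Finset.sum_nonneg fun k _ => Finset.sum_nonneg fun j _ => ?_
    split_ifs
    · exact one_div_nonneg.2 (Real.sqrt_nonneg _)
    · exact le_rfl
  have hLoc0 : 0 ≤ Loc d z X Z x := by
    unfold Loc
    positivity
  have q0 : 0 ≤ C * (z * (1 + Λ) * n) := by positivity
  have q1 : 0 ≤ 1440 * K2 * Loc d z X Z x := by positivity
  have q2 : 0 ≤ 1440 * K2 * (z * n) := by positivity
  have q3 : 0 ≤ 1440 * K2 / L * (rep x + ∑ k, pot X Z (x k)) := by positivity
  have q4 : (C + 1440 * K2) * (Loc d z X Z x + z * (1 + Λ) * n) +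
      (C + 1440 * K2) / L * (rep x + ∑ k, pot X Z (x k)) =
      C * Loc d z X Z x + C / L * (rep x + ∑ k, pot X Z (x k)) +
      2 * (3 * (240 * K2 * (z * Λ * n))) + C * (z * (1 + Λ) * n) +
      1440 * K2 * Loc d z X Z x + 1440 * K2 * (z * n) +
      1440 * K2 / L * (rep x + ∑ k, pot X Z (x k)) := by ring
  rw [q4]
  linarith

end Pool.Agent.Helper33.HV
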